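import Pool.Agent.helper12.GS.Pm

/-!
Generated: constants of the corner programs of the table Q200a.
-/

namespace Pool.Agent.helper12.K200

open Pool.Agent.helper31.IA (Z)
open Pool.Agent.helper12.GS

def p0 : Pm where
  ec := ⟨5251268608, 0, 0, 0⟩
  bc := ⟨0, 0, 0, 0⟩
  nn := ⟨1099511627776, 0, 0, 0⟩
  tj := ⟨4398046511104, 0, 0, 0⟩
  ca := ⟨989453090816, 0, 0, 0⟩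
  cb := ⟨931202596864, 0, 0, 0⟩
  cc := ⟨0, 0, 0, 0⟩
  ax := ⟨0, 0, 0, 0⟩
  ay := ⟨0, 0, 0, 0⟩
  xa := ⟨0, 0, 0, 0⟩
  C2 := ⟨0, 0, 0, 0⟩
  wr := ⟨0, 877783941120, 0, 0⟩
  wi := ⟨6562978463744, 0, 0, 0⟩
  w1 := ⟨0, 91895120265216, 0, 0⟩
  h000 := ⟨0, 8936704960, 0, 0⟩
  h001 := ⟨0, 2618666560, 0, 0⟩
  h002 := ⟨5081778752, 0, 0, 0⟩
  h003 := ⟨0, 11999633664, 0, 0⟩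
  h010 := ⟨0, 3052875267648, 0, 0⟩
  h011 := ⟨0, 1301615060096, 0, 0⟩
  h012 := ⟨0, 0, 0, 0⟩
  h020 := ⟨105109046697088, 0, 0, 0⟩
  h021 := ⟨0, 0, 0, 0⟩
  h030 := ⟨0, 0, 0, 0⟩
  h100 := ⟨0, 963700160, 0, 0⟩
  h101 := ⟨1786633536, 0, 0, 0⟩
  h102 := ⟨0, 244094656, 0, 0⟩
  h110 := ⟨213244426880, 0, 0, 0⟩
  h111 := ⟨0, 474966930880, 0, 0⟩
  h120 := ⟨0, 0, 0, 0⟩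
  h200 := ⟨523342592, 0, 0, 0⟩
  h201 := ⟨0, 317149824, 0, 0⟩
  h202 := ⟨194517440, 0, 0, 0⟩
  h210 := ⟨19468412736, 0, 0, 0⟩
  h211 := ⟨0, 0, 0, 0⟩
  h300 := ⟨0, 90202496, 0, 0⟩
  h301 := ⟨20961984, 0, 0, 0⟩
  h310 := ⟨0, 8108527296, 0, 0⟩
  h400 := ⟨9194176, 0, 0, 0⟩
  h401 := ⟨0, 607552, 0, 0⟩
  h410 := ⟨0, 0, 0, 0⟩
  h500 := ⟨0, 580288, 0, 0⟩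
  h501 := ⟨0, 0, 0, 0⟩
  h600 := ⟨16704, 0, 0, 0⟩
  h700 := ⟨0, 0, 0, 0⟩
  h800 := ⟨0, 0, 0, 0⟩
  m000 := ⟨1097829318656, 0, 0, 0⟩
  m001 := ⟨268435456, 0, 0, 0⟩
  m002 := ⟨0, 692453376, 0, 0⟩
  m010 := ⟨518896156672, 0, 0, 0⟩
  m100 := ⟨3360686080, 0, 0, 0⟩
  m101 := ⟨0, 19529728, 0, 0⟩
  m110 := ⟨481782398976, 0, 0, 0⟩
  m200 := ⟨0, 172818432, 0, 0⟩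
  m300 := ⟨25100288, 0, 0, 0⟩
  a00 := ⟨113396940800, 0, 0, 0⟩
  a01 := ⟨11018240000, 0, 0, 0⟩
  a02 := ⟨0, 658558156800, 0, 0⟩
  a03 := ⟨1666069168128, 0, 0, 0⟩
  a10 := ⟨0, 28902402949120, 0, 0⟩
  a11 := ⟨67305958604800, 0, 0, 0⟩
  b00 := ⟨103323664384, 0, 0, 0⟩
  b01 := ⟨2828861440, 0, 0, 0⟩
  b02 := ⟨0, 586305175552, 0, 0⟩
  b03 := ⟨1458856787968, 0, 0, 0⟩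
  b10 := ⟨0, 25947750203392, 0, 0⟩
  b11 := ⟨53176689885184, 0, 0, 0⟩
  t00 := ⟨1097262956544, 0, 0, 0⟩
  t01 := ⟨0, 1786220380160, 0, 0⟩
  t02 := ⟨0, 2418145689600, 0, 0⟩
  t03 := ⟨11907249340416, 0, 0, 0⟩
  t10 := ⟨0, 243439678146560, 0, 0⟩
  t11 := ⟨685289857105920, 0, 0, 0⟩
  s00 := ⟨1845613166592, 0, 0, 0⟩
  s01 := ⟨76500500480, 0, 0, 0⟩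
  s02 := ⟨0, 584491859968, 0, 0⟩
  s03 := ⟨1417027649536, 0, 0, 0⟩
  s10 := ⟨0, 2695328759808, 0, 0⟩
  s11 := ⟨11194445791232, 0, 0, 0⟩
  g00 := ⟨42346092416, 0, 0, 0⟩
  g01 := ⟨0, 45356611456, 0, 0⟩
  g10 := ⟨9319047959552, 0, 0, 0⟩
  g11 := ⟨0, 0, 0, 0⟩
  f00 := ⟨330953731904, 0, 0, 0⟩
  f01 := ⟨143008424768, 0, 0, 0⟩
  f10 := ⟨94769588392320, 0, 0, 0⟩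
  f11 := ⟨0, 0, 0, 0⟩
  l000 := ⟨0, 0, 0, 0⟩
  l001 := ⟨0, 0, 0, 0⟩
  l002 := ⟨0, 0, 0, 0⟩
  l010 := ⟨0, 0, 0, 0⟩
  l011 := ⟨0, 0, 0, 0⟩
  l020 := ⟨0, 0, 0, 0⟩
  l100 := ⟨0, 0, 0, 0⟩
  l101 := ⟨0, 0, 0, 0⟩
  l102 := ⟨0, 0, 0, 0⟩
  l110 := ⟨0, 0, 0, 0⟩
  l111 := ⟨0, 0, 0, 0⟩
  l120 := ⟨0, 0, 0, 0⟩
  l200 := ⟨0, 0, 0, 0⟩
  l201 := ⟨0, 0, 0, 0⟩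
  l210 := ⟨0, 0, 0, 0⟩
  l300 := ⟨0, 0, 0, 0⟩
  l301 := ⟨0, 0, 0, 0⟩
  l310 := ⟨0, 0, 0, 0⟩
  l400 := ⟨0, 0, 0, 0⟩
  l401 := ⟨0, 0, 0, 0⟩
  l410 := ⟨0, 0, 0, 0⟩
  l500 := ⟨0, 0, 0, 0⟩
  l501 := ⟨0, 0, 0, 0⟩
  l510 := ⟨0, 0, 0, 0⟩
  l600 := ⟨0, 0, 0, 0⟩
  l700 := ⟨0, 0, 0, 0⟩
  l800 := ⟨0, 0, 0, 0⟩
  l900 := ⟨0, 0, 0, 0⟩
  l1000 := ⟨0, 0, 0, 0⟩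
  l1100 := ⟨0, 0, 0, 0⟩
  q00 := ⟨0, 0, 0, 0⟩
  q01 := ⟨0, 0, 0, 0⟩
  q02 := ⟨0, 0, 0, 0⟩
  q03 := ⟨0, 0, 0, 0⟩
  q10 := ⟨0, 0, 0, 0⟩
  q11 := ⟨0, 0, 0, 0⟩
  q12 := ⟨0, 0, 0, 0⟩
  q20 := ⟨0, 0, 0, 0⟩
  q21 := ⟨0, 0, 0, 0⟩
  q30 := ⟨0, 0, 0, 0⟩
  n000 := ⟨0, 0, 0, 0⟩
  n001 := ⟨0, 0, 0, 0⟩
  n002 := ⟨0, 0, 0, 0⟩
  n010 := ⟨0, 0, 0, 0⟩
  n011 := ⟨0, 0, 0, 0⟩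
  n020 := ⟨0, 0, 0, 0⟩
  n100 := ⟨0, 0, 0, 0⟩
  n101 := ⟨0, 0, 0, 0⟩
  n110 := ⟨0, 0, 0, 0⟩
  n200 := ⟨0, 0, 0, 0⟩
  n201 := ⟨0, 0, 0, 0⟩
  n210 := ⟨0, 0, 0, 0⟩
  n300 := ⟨0, 0, 0, 0⟩
  n400 := ⟨0, 0, 0, 0⟩
  n500 := ⟨0, 0, 0, 0⟩
  e00 := ⟨0, 0, 0, 0⟩
  e01 := ⟨0, 0, 0, 0⟩
  e02 := ⟨0, 0, 0, 0⟩
  e03 := ⟨0, 0, 0, 0⟩
  e10 := ⟨0, 0, 0, 0⟩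
  e11 := ⟨0, 0, 0, 0⟩
  B1 := 0

def p1 : Pm where
  ec := ⟨5251268608, 0, 0, 0⟩
  bc := ⟨0, 0, 0, 0⟩
  nn := ⟨2199023255552, 0, 0, 0⟩
  tj := ⟨6597069766656, 0, 0, 0⟩
  ca := ⟨931202596864, 0, 0, 0⟩
  cb := ⟨872952102912, 0, 0, 0⟩
  cc := ⟨0, 0, 0, 0⟩
  ax := ⟨0, 0, 0, 0⟩
  ay := ⟨0, 0, 0, 0⟩
  xa := ⟨0, 0, 0, 0⟩
  C2 := ⟨0, 0, 0, 0⟩
  wr := ⟨0, 877783941120, 0, 0⟩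
  wi := ⟨6562978463744, 0, 0, 0⟩
  w1 := ⟨0, 91895120265216, 0, 0⟩
  h000 := ⟨0, 8936704960, 0, 0⟩
  h001 := ⟨0, 2618666560, 0, 0⟩
  h002 := ⟨5081778752, 0, 0, 0⟩
  h003 := ⟨0, 11999633664, 0, 0⟩
  h010 := ⟨0, 3052875267648, 0, 0⟩
  h011 := ⟨0, 1301615060096, 0, 0⟩
  h012 := ⟨0, 0, 0, 0⟩
  h020 := ⟨105109046697088, 0, 0, 0⟩
  h021 := ⟨0, 0, 0, 0⟩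
  h030 := ⟨0, 0, 0, 0⟩
  h100 := ⟨0, 963700160, 0, 0⟩
  h101 := ⟨1786633536, 0, 0, 0⟩
  h102 := ⟨0, 244094656, 0, 0⟩
  h110 := ⟨213244426880, 0, 0, 0⟩
  h111 := ⟨0, 474966930880, 0, 0⟩
  h120 := ⟨0, 0, 0, 0⟩
  h200 := ⟨523342592, 0, 0, 0⟩
  h201 := ⟨0, 317149824, 0, 0⟩
  h202 := ⟨194517440, 0, 0, 0⟩
  h210 := ⟨19468412736, 0, 0, 0⟩
  h211 := ⟨0, 0, 0, 0⟩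
  h300 := ⟨0, 90202496, 0, 0⟩
  h301 := ⟨20961984, 0, 0, 0⟩
  h310 := ⟨0, 8108527296, 0, 0⟩
  h400 := ⟨9194176, 0, 0, 0⟩
  h401 := ⟨0, 607552, 0, 0⟩
  h410 := ⟨0, 0, 0, 0⟩
  h500 := ⟨0, 580288, 0, 0⟩
  h501 := ⟨0, 0, 0, 0⟩
  h600 := ⟨16704, 0, 0, 0⟩
  h700 := ⟨0, 0, 0, 0⟩
  h800 := ⟨0, 0, 0, 0⟩
  m000 := ⟨1098159030272, 0, 0, 0⟩
  m001 := ⟨4718592, 0, 0, 0⟩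
  m002 := ⟨0, 193593344, 0, 0⟩
  m010 := ⟨471119953920, 0, 0, 0⟩
  m100 := ⟨3244425216, 0, 0, 0⟩
  m101 := ⟨11534336, 0, 0, 0⟩
  m110 := ⟨491370643456, 0, 0, 0⟩
  m200 := ⟨0, 150798336, 0, 0⟩
  m300 := ⟨22740992, 0, 0, 0⟩
  a00 := ⟨103323664384, 0, 0, 0⟩
  a01 := ⟨2828861440, 0, 0, 0⟩
  a02 := ⟨0, 586305175552, 0, 0⟩
  a03 := ⟨1458856787968, 0, 0, 0⟩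
  a10 := ⟨0, 25947750203392, 0, 0⟩
  a11 := ⟨53176689885184, 0, 0, 0⟩
  b00 := ⟨94521131008, 0, 0, 0⟩
  b01 := ⟨0, 4198694912, 0, 0⟩
  b02 := ⟨0, 520935571456, 0, 0⟩
  b03 := ⟨1286242631680, 0, 0, 0⟩
  b10 := ⟨0, 23484127313920, 0, 0⟩
  b11 := ⟨42269732503552, 0, 0, 0⟩
  t00 := ⟨1000301199360, 0, 0, 0⟩
  t01 := ⟨0, 1621837545472, 0, 0⟩
  t02 := ⟨0, 2228245102592, 0, 0⟩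
  t03 := ⟨10479408119808, 0, 0, 0⟩
  t10 := ⟨0, 219169152190464, 0, 0⟩
  t11 := ⟨559279228993536, 0, 0, 0⟩
  s00 := ⟨2942876123136, 0, 0, 0⟩
  s01 := ⟨0, 1709719879680, 0, 0⟩
  s02 := ⟨0, 3002637549568, 0, 0⟩
  s03 := ⟨13324276989952, 0, 0, 0⟩
  s10 := ⟨0, 246135006906368, 0, 0⟩
  s11 := ⟨696484302897152, 0, 0, 0⟩
  g00 := ⟨42346092416, 0, 0, 0⟩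
  g01 := ⟨0, 45356611456, 0, 0⟩
  g10 := ⟨9319047959552, 0, 0, 0⟩
  g11 := ⟨0, 0, 0, 0⟩
  f00 := ⟨330953731904, 0, 0, 0⟩
  f01 := ⟨143008424768, 0, 0, 0⟩
  f10 := ⟨94769588392320, 0, 0, 0⟩
  f11 := ⟨0, 0, 0, 0⟩
  l000 := ⟨0, 0, 0, 0⟩
  l001 := ⟨0, 0, 0, 0⟩
  l002 := ⟨0, 0, 0, 0⟩
  l010 := ⟨0, 0, 0, 0⟩
  l011 := ⟨0, 0, 0, 0⟩
  l020 := ⟨0, 0, 0, 0⟩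
  l100 := ⟨0, 0, 0, 0⟩
  l101 := ⟨0, 0, 0, 0⟩
  l102 := ⟨0, 0, 0, 0⟩
  l110 := ⟨0, 0, 0, 0⟩
  l111 := ⟨0, 0, 0, 0⟩
  l120 := ⟨0, 0, 0, 0⟩
  l200 := ⟨0, 0, 0, 0⟩
  l201 := ⟨0, 0, 0, 0⟩
  l210 := ⟨0, 0, 0, 0⟩
  l300 := ⟨0, 0, 0, 0⟩
  l301 := ⟨0, 0, 0, 0⟩
  l310 := ⟨0, 0, 0, 0⟩
  l400 := ⟨0, 0, 0, 0⟩
  l401 := ⟨0, 0, 0, 0⟩
  l410 := ⟨0, 0, 0, 0⟩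
  l500 := ⟨0, 0, 0, 0⟩
  l501 := ⟨0, 0, 0, 0⟩
  l510 := ⟨0, 0, 0, 0⟩
  l600 := ⟨0, 0, 0, 0⟩
  l700 := ⟨0, 0, 0, 0⟩
  l800 := ⟨0, 0, 0, 0⟩
  l900 := ⟨0, 0, 0, 0⟩
  l1000 := ⟨0, 0, 0, 0⟩
  l1100 := ⟨0, 0, 0, 0⟩
  q00 := ⟨0, 0, 0, 0⟩
  q01 := ⟨0, 0, 0, 0⟩
  q02 := ⟨0, 0, 0, 0⟩
  q03 := ⟨0, 0, 0, 0⟩
  q10 := ⟨0, 0, 0, 0⟩
  q11 := ⟨0, 0, 0, 0⟩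
  q12 := ⟨0, 0, 0, 0⟩
  q20 := ⟨0, 0, 0, 0⟩
  q21 := ⟨0, 0, 0, 0⟩
  q30 := ⟨0, 0, 0, 0⟩
  n000 := ⟨0, 0, 0, 0⟩
  n001 := ⟨0, 0, 0, 0⟩
  n002 := ⟨0, 0, 0, 0⟩
  n010 := ⟨0, 0, 0, 0⟩
  n011 := ⟨0, 0, 0, 0⟩
  n020 := ⟨0, 0, 0, 0⟩
  n100 := ⟨0, 0, 0, 0⟩
  n101 := ⟨0, 0, 0, 0⟩
  n110 := ⟨0, 0, 0, 0⟩
  n200 := ⟨0, 0, 0, 0⟩
  n201 := ⟨0, 0, 0, 0⟩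
  n210 := ⟨0, 0, 0, 0⟩
  n300 := ⟨0, 0, 0, 0⟩
  n400 := ⟨0, 0, 0, 0⟩
  n500 := ⟨0, 0, 0, 0⟩
  e00 := ⟨0, 0, 0, 0⟩
  e01 := ⟨0, 0, 0, 0⟩
  e02 := ⟨0, 0, 0, 0⟩
  e03 := ⟨0, 0, 0, 0⟩
  e10 := ⟨0, 0, 0, 0⟩
  e11 := ⟨0, 0, 0, 0⟩
  B1 := 0

def p2 : Pm where
  ec := ⟨5251268608, 0, 0, 0⟩
  bc := ⟨0, 0, 0, 0⟩
  nn := ⟨3298534883328, 0, 0, 0⟩
  tj := ⟨8796093022208, 0, 0, 0⟩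
  ca := ⟨872952102912, 0, 0, 0⟩
  cb := ⟨814701608960, 0, 0, 0⟩
  cc := ⟨0, 0, 0, 0⟩
  ax := ⟨0, 0, 0, 0⟩
  ay := ⟨0, 0, 0, 0⟩
  xa := ⟨0, 0, 0, 0⟩
  C2 := ⟨0, 0, 0, 0⟩
  wr := ⟨0, 877783941120, 0, 0⟩
  wi := ⟨6562978463744, 0, 0, 0⟩
  w1 := ⟨0, 91895120265216, 0, 0⟩
  h000 := ⟨0, 8936704960, 0, 0⟩
  h001 := ⟨0, 2618666560, 0, 0⟩
  h002 := ⟨5081778752, 0, 0, 0⟩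
  h003 := ⟨0, 11999633664, 0, 0⟩
  h010 := ⟨0, 3052875267648, 0, 0⟩
  h011 := ⟨0, 1301615060096, 0, 0⟩
  h012 := ⟨0, 0, 0, 0⟩
  h020 := ⟨105109046697088, 0, 0, 0⟩
  h021 := ⟨0, 0, 0, 0⟩
  h030 := ⟨0, 0, 0, 0⟩
  h100 := ⟨0, 963700160, 0, 0⟩
  h101 := ⟨1786633536, 0, 0, 0⟩
  h102 := ⟨0, 244094656, 0, 0⟩
  h110 := ⟨213244426880, 0, 0, 0⟩
  h111 := ⟨0, 474966930880, 0, 0⟩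
  h120 := ⟨0, 0, 0, 0⟩
  h200 := ⟨523342592, 0, 0, 0⟩
  h201 := ⟨0, 317149824, 0, 0⟩
  h202 := ⟨194517440, 0, 0, 0⟩
  h210 := ⟨19468412736, 0, 0, 0⟩
  h211 := ⟨0, 0, 0, 0⟩
  h300 := ⟨0, 90202496, 0, 0⟩
  h301 := ⟨20961984, 0, 0, 0⟩
  h310 := ⟨0, 8108527296, 0, 0⟩
  h400 := ⟨9194176, 0, 0, 0⟩
  h401 := ⟨0, 607552, 0, 0⟩
  h410 := ⟨0, 0, 0, 0⟩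
  h500 := ⟨0, 580288, 0, 0⟩
  h501 := ⟨0, 0, 0, 0⟩
  h600 := ⟨16704, 0, 0, 0⟩
  h700 := ⟨0, 0, 0, 0⟩
  h800 := ⟨0, 0, 0, 0⟩
  m000 := ⟨1098459250688, 0, 0, 0⟩
  m001 := ⟨0, 126025728, 0, 0⟩
  m002 := ⟨104464384, 0, 0, 0⟩
  m010 := ⟨416291225600, 0, 0, 0⟩
  m100 := ⟨3134128128, 0, 0, 0⟩
  m101 := ⟨31981568, 0, 0, 0⟩
  m110 := ⟨502010019840, 0, 0, 0⟩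
  m200 := ⟨0, 128057344, 0, 0⟩
  m300 := ⟨20447232, 0, 0, 0⟩
  a00 := ⟨94521131008, 0, 0, 0⟩
  a01 := ⟨0, 4198694912, 0, 0⟩
  a02 := ⟨0, 520935571456, 0, 0⟩
  a03 := ⟨1286242631680, 0, 0, 0⟩
  a10 := ⟨0, 23484127313920, 0, 0⟩
  a11 := ⟨42269732503552, 0, 0, 0⟩
  b00 := ⟨86692659200, 0, 0, 0⟩
  b01 := ⟨0, 9713745920, 0, 0⟩
  b02 := ⟨0, 456378482688, 0, 0⟩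
  b03 := ⟨1114085785600, 0, 0, 0⟩
  b10 := ⟨0, 21436167815168, 0, 0⟩
  b11 := ⟨34012912091136, 0, 0, 0⟩
  t00 := ⟨915021430784, 0, 0, 0⟩
  t01 := ⟨0, 1457353261056, 0, 0⟩
  t02 := ⟨0, 2305650065408, 0, 0⟩
  t03 := ⟨10083615965184, 0, 0, 0⟩
  t10 := ⟨0, 198216941193216, 0, 0⟩
  t11 := ⟨456656672014336, 0, 0, 0⟩
  s00 := ⟨3943177322496, 0, 0, 0⟩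
  s01 := ⟨0, 3331557425152, 0, 0⟩
  s02 := ⟨0, 5230882652160, 0, 0⟩
  s03 := ⟨23803685109760, 0, 0, 0⟩
  s10 := ⟨0, 465304159096832, 0, 0⟩
  s11 := ⟨1255763531890688, 0, 0, 0⟩
  g00 := ⟨42346092416, 0, 0, 0⟩
  g01 := ⟨0, 45356611456, 0, 0⟩
  g10 := ⟨9319047959552, 0, 0, 0⟩
  g11 := ⟨0, 0, 0, 0⟩
  f00 := ⟨330953731904, 0, 0, 0⟩
  f01 := ⟨143008424768, 0, 0, 0⟩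
  f10 := ⟨94769588392320, 0, 0, 0⟩
  f11 := ⟨0, 0, 0, 0⟩
  l000 := ⟨0, 0, 0, 0⟩
  l001 := ⟨0, 0, 0, 0⟩
  l002 := ⟨0, 0, 0, 0⟩
  l010 := ⟨0, 0, 0, 0⟩
  l011 := ⟨0, 0, 0, 0⟩
  l020 := ⟨0, 0, 0, 0⟩
  l100 := ⟨0, 0, 0, 0⟩
  l101 := ⟨0, 0, 0, 0⟩
  l102 := ⟨0, 0, 0, 0⟩
  l110 := ⟨0, 0, 0, 0⟩
  l111 := ⟨0, 0, 0, 0⟩
  l120 := ⟨0, 0, 0, 0⟩
  l200 := ⟨0, 0, 0, 0⟩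
  l201 := ⟨0, 0, 0, 0⟩
  l210 := ⟨0, 0, 0, 0⟩
  l300 := ⟨0, 0, 0, 0⟩
  l301 := ⟨0, 0, 0, 0⟩
  l310 := ⟨0, 0, 0, 0⟩
  l400 := ⟨0, 0, 0, 0⟩
  l401 := ⟨0, 0, 0, 0⟩
  l410 := ⟨0, 0, 0, 0⟩
  l500 := ⟨0, 0, 0, 0⟩
  l501 := ⟨0, 0, 0, 0⟩
  l510 := ⟨0, 0, 0, 0⟩
  l600 := ⟨0, 0, 0, 0⟩
  l700 := ⟨0, 0, 0, 0⟩
  l800 := ⟨0, 0, 0, 0⟩
  l900 := ⟨0, 0, 0, 0⟩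
  l1000 := ⟨0, 0, 0, 0⟩
  l1100 := ⟨0, 0, 0, 0⟩
  q00 := ⟨0, 0, 0, 0⟩
  q01 := ⟨0, 0, 0, 0⟩
  q02 := ⟨0, 0, 0, 0⟩
  q03 := ⟨0, 0, 0, 0⟩
  q10 := ⟨0, 0, 0, 0⟩
  q11 := ⟨0, 0, 0, 0⟩
  q12 := ⟨0, 0, 0, 0⟩
  q20 := ⟨0, 0, 0, 0⟩
  q21 := ⟨0, 0, 0, 0⟩
  q30 := ⟨0, 0, 0, 0⟩
  n000 := ⟨0, 0, 0, 0⟩
  n001 := ⟨0, 0, 0, 0⟩
  n002 := ⟨0, 0, 0, 0⟩
  n010 := ⟨0, 0, 0, 0⟩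
  n011 := ⟨0, 0, 0, 0⟩
  n020 := ⟨0, 0, 0, 0⟩
  n100 := ⟨0, 0, 0, 0⟩
  n101 := ⟨0, 0, 0, 0⟩
  n110 := ⟨0, 0, 0, 0⟩
  n200 := ⟨0, 0, 0, 0⟩
  n201 := ⟨0, 0, 0, 0⟩
  n210 := ⟨0, 0, 0, 0⟩
  n300 := ⟨0, 0, 0, 0⟩
  n400 := ⟨0, 0, 0, 0⟩
  n500 := ⟨0, 0, 0, 0⟩
  e00 := ⟨0, 0, 0, 0⟩
  e01 := ⟨0, 0, 0, 0⟩
  e02 := ⟨0, 0, 0, 0⟩
  e03 := ⟨0, 0, 0, 0⟩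
  e10 := ⟨0, 0, 0, 0⟩
  e11 := ⟨0, 0, 0, 0⟩
  B1 := 0

def p3 : Pm where
  ec := ⟨5251268608, 0, 0, 0⟩
  bc := ⟨0, 0, 0, 0⟩
  nn := ⟨4398046511104, 0, 0, 0⟩
  tj := ⟨10995116277760, 0, 0, 0⟩
  ca := ⟨814701608960, 0, 0, 0⟩
  cb := ⟨756451115008, 0, 0, 0⟩
  cc := ⟨0, 0, 0, 0⟩
  ax := ⟨0, 0, 0, 0⟩
  ay := ⟨0, 0, 0, 0⟩
  xa := ⟨0, 0, 0, 0⟩
  C2 := ⟨0, 0, 0, 0⟩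
  wr := ⟨0, 877783941120, 0, 0⟩
  wi := ⟨6562978463744, 0, 0, 0⟩
  w1 := ⟨0, 91895120265216, 0, 0⟩
  h000 := ⟨0, 8936704960, 0, 0⟩
  h001 := ⟨0, 2618666560, 0, 0⟩
  h002 := ⟨5081778752, 0, 0, 0⟩
  h003 := ⟨0, 11999633664, 0, 0⟩
  h010 := ⟨0, 3052875267648, 0, 0⟩
  h011 := ⟨0, 1301615060096, 0, 0⟩
  h012 := ⟨0, 0, 0, 0⟩
  h020 := ⟨105109046697088, 0, 0, 0⟩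
  h021 := ⟨0, 0, 0, 0⟩
  h030 := ⟨0, 0, 0, 0⟩
  h100 := ⟨0, 963700160, 0, 0⟩
  h101 := ⟨1786633536, 0, 0, 0⟩
  h102 := ⟨0, 244094656, 0, 0⟩
  h110 := ⟨213244426880, 0, 0, 0⟩
  h111 := ⟨0, 474966930880, 0, 0⟩
  h120 := ⟨0, 0, 0, 0⟩
  h200 := ⟨523342592, 0, 0, 0⟩
  h201 := ⟨0, 317149824, 0, 0⟩
  h202 := ⟨194517440, 0, 0, 0⟩
  h210 := ⟨19468412736, 0, 0, 0⟩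
  h211 := ⟨0, 0, 0, 0⟩
  h300 := ⟨0, 90202496, 0, 0⟩
  h301 := ⟨20961984, 0, 0, 0⟩
  h310 := ⟨0, 8108527296, 0, 0⟩
  h400 := ⟨9194176, 0, 0, 0⟩
  h401 := ⟨0, 607552, 0, 0⟩
  h410 := ⟨0, 0, 0, 0⟩
  h500 := ⟨0, 580288, 0, 0⟩
  h501 := ⟨0, 0, 0, 0⟩
  h600 := ⟨16704, 0, 0, 0⟩
  h700 := ⟨0, 0, 0, 0⟩
  h800 := ⟨0, 0, 0, 0⟩
  m000 := ⟨1098631872512, 0, 0, 0⟩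
  m001 := ⟨0, 152633344, 0, 0⟩
  m002 := ⟨1355350016, 0, 0, 0⟩
  m010 := ⟨259616079872, 0, 0, 0⟩
  m100 := ⟨3046703104, 0, 0, 0⟩
  m101 := ⟨24576000, 0, 0, 0⟩
  m110 := ⟨516745592832, 0, 0, 0⟩
  m200 := ⟨0, 107610112, 0, 0⟩
  m300 := ⟨18284544, 0, 0, 0⟩
  a00 := ⟨86692659200, 0, 0, 0⟩
  a01 := ⟨0, 9713745920, 0, 0⟩
  a02 := ⟨0, 456378482688, 0, 0⟩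
  a03 := ⟨1114085785600, 0, 0, 0⟩
  a10 := ⟨0, 21436167815168, 0, 0⟩
  a11 := ⟨34012912091136, 0, 0, 0⟩
  b00 := ⟨79708618752, 0, 0, 0⟩
  b01 := ⟨0, 12890013696, 0, 0⟩
  b02 := ⟨0, 412200796160, 0, 0⟩
  b03 := ⟨998452690944, 0, 0, 0⟩
  b10 := ⟨0, 19599686172672, 0, 0⟩
  b11 := ⟨27120394305536, 0, 0, 0⟩
  t00 := ⟨839499448320, 0, 0, 0⟩
  t01 := ⟨0, 1314143404032, 0, 0⟩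
  t02 := ⟨0, 2275723509760, 0, 0⟩
  t03 := ⟨9468277817344, 0, 0, 0⟩
  t10 := ⟨0, 181142453897216, 0, 0⟩
  t11 := ⟨377851800403968, 0, 0, 0⟩
  s00 := ⟨4858198753280, 0, 0, 0⟩
  s01 := ⟨0, 4788910686208, 0, 0⟩
  s02 := ⟨0, 7536532717568, 0, 0⟩
  s03 := ⟨33887301074944, 0, 0, 0⟩
  s10 := ⟨0, 663521100290048, 0, 0⟩
  s11 := ⟨1712420203905024, 0, 0, 0⟩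
  g00 := ⟨42346092416, 0, 0, 0⟩
  g01 := ⟨0, 45356611456, 0, 0⟩
  g10 := ⟨9319047959552, 0, 0, 0⟩
  g11 := ⟨0, 0, 0, 0⟩
  f00 := ⟨330953731904, 0, 0, 0⟩
  f01 := ⟨143008424768, 0, 0, 0⟩
  f10 := ⟨94769588392320, 0, 0, 0⟩
  f11 := ⟨0, 0, 0, 0⟩
  l000 := ⟨0, 0, 0, 0⟩
  l001 := ⟨0, 0, 0, 0⟩
  l002 := ⟨0, 0, 0, 0⟩
  l010 := ⟨0, 0, 0, 0⟩
  l011 := ⟨0, 0, 0, 0⟩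
  l020 := ⟨0, 0, 0, 0⟩
  l100 := ⟨0, 0, 0, 0⟩
  l101 := ⟨0, 0, 0, 0⟩
  l102 := ⟨0, 0, 0, 0⟩
  l110 := ⟨0, 0, 0, 0⟩
  l111 := ⟨0, 0, 0, 0⟩
  l120 := ⟨0, 0, 0, 0⟩
  l200 := ⟨0, 0, 0, 0⟩
  l201 := ⟨0, 0, 0, 0⟩
  l210 := ⟨0, 0, 0, 0⟩
  l300 := ⟨0, 0, 0, 0⟩
  l301 := ⟨0, 0, 0, 0⟩
  l310 := ⟨0, 0, 0, 0⟩
  l400 := ⟨0, 0, 0, 0⟩
  l401 := ⟨0, 0, 0, 0⟩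
  l410 := ⟨0, 0, 0, 0⟩
  l500 := ⟨0, 0, 0, 0⟩
  l501 := ⟨0, 0, 0, 0⟩
  l510 := ⟨0, 0, 0, 0⟩
  l600 := ⟨0, 0, 0, 0⟩
  l700 := ⟨0, 0, 0, 0⟩
  l800 := ⟨0, 0, 0, 0⟩
  l900 := ⟨0, 0, 0, 0⟩
  l1000 := ⟨0, 0, 0, 0⟩
  l1100 := ⟨0, 0, 0, 0⟩
  q00 := ⟨0, 0, 0, 0⟩
  q01 := ⟨0, 0, 0, 0⟩
  q02 := ⟨0, 0, 0, 0⟩
  q03 := ⟨0, 0, 0, 0⟩
  q10 := ⟨0, 0, 0, 0⟩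
  q11 := ⟨0, 0, 0, 0⟩
  q12 := ⟨0, 0, 0, 0⟩
  q20 := ⟨0, 0, 0, 0⟩
  q21 := ⟨0, 0, 0, 0⟩
  q30 := ⟨0, 0, 0, 0⟩
  n000 := ⟨0, 0, 0, 0⟩
  n001 := ⟨0, 0, 0, 0⟩
  n002 := ⟨0, 0, 0, 0⟩
  n010 := ⟨0, 0, 0, 0⟩
  n011 := ⟨0, 0, 0, 0⟩
  n020 := ⟨0, 0, 0, 0⟩
  n100 := ⟨0, 0, 0, 0⟩
  n101 := ⟨0, 0, 0, 0⟩
  n110 := ⟨0, 0, 0, 0⟩
  n200 := ⟨0, 0, 0, 0⟩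
  n201 := ⟨0, 0, 0, 0⟩
  n210 := ⟨0, 0, 0, 0⟩
  n300 := ⟨0, 0, 0, 0⟩
  n400 := ⟨0, 0, 0, 0⟩
  n500 := ⟨0, 0, 0, 0⟩
  e00 := ⟨0, 0, 0, 0⟩
  e01 := ⟨0, 0, 0, 0⟩
  e02 := ⟨0, 0, 0, 0⟩
  e03 := ⟨0, 0, 0, 0⟩
  e10 := ⟨0, 0, 0, 0⟩
  e11 := ⟨0, 0, 0, 0⟩
  B1 := 0

def p4 : Pm where
  ec := ⟨5251268608, 0, 0, 0⟩
  bc := ⟨0, 0, 0, 0⟩
  nn := ⟨5497558138880, 0, 0, 0⟩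
  tj := ⟨13194139533312, 0, 0, 0⟩
  ca := ⟨756451115008, 0, 0, 0⟩
  cb := ⟨697126879232, 0, 0, 0⟩
  cc := ⟨0, 0, 0, 0⟩
  ax := ⟨0, 0, 0, 0⟩
  ay := ⟨0, 0, 0, 0⟩
  xa := ⟨0, 0, 0, 0⟩
  C2 := ⟨0, 0, 0, 0⟩
  wr := ⟨0, 877783941120, 0, 0⟩
  wi := ⟨6562978463744, 0, 0, 0⟩
  w1 := ⟨0, 91895120265216, 0, 0⟩
  h000 := ⟨0, 8936704960, 0, 0⟩
  h001 := ⟨0, 2618666560, 0, 0⟩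
  h002 := ⟨5081778752, 0, 0, 0⟩
  h003 := ⟨0, 11999633664, 0, 0⟩
  h010 := ⟨0, 3052875267648, 0, 0⟩
  h011 := ⟨0, 1301615060096, 0, 0⟩
  h012 := ⟨0, 0, 0, 0⟩
  h020 := ⟨105109046697088, 0, 0, 0⟩
  h021 := ⟨0, 0, 0, 0⟩
  h030 := ⟨0, 0, 0, 0⟩
  h100 := ⟨0, 963700160, 0, 0⟩
  h101 := ⟨1786633536, 0, 0, 0⟩
  h102 := ⟨0, 244094656, 0, 0⟩
  h110 := ⟨213244426880, 0, 0, 0⟩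
  h111 := ⟨0, 474966930880, 0, 0⟩
  h120 := ⟨0, 0, 0, 0⟩
  h200 := ⟨523342592, 0, 0, 0⟩
  h201 := ⟨0, 317149824, 0, 0⟩
  h202 := ⟨194517440, 0, 0, 0⟩
  h210 := ⟨19468412736, 0, 0, 0⟩
  h211 := ⟨0, 0, 0, 0⟩
  h300 := ⟨0, 90202496, 0, 0⟩
  h301 := ⟨20961984, 0, 0, 0⟩
  h310 := ⟨0, 8108527296, 0, 0⟩
  h400 := ⟨9194176, 0, 0, 0⟩
  h401 := ⟨0, 607552, 0, 0⟩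
  h410 := ⟨0, 0, 0, 0⟩
  h500 := ⟨0, 580288, 0, 0⟩
  h501 := ⟨0, 0, 0, 0⟩
  h600 := ⟨16704, 0, 0, 0⟩
  h700 := ⟨0, 0, 0, 0⟩
  h800 := ⟨0, 0, 0, 0⟩
  m000 := ⟨1098817601536, 0, 0, 0⟩
  m001 := ⟨0, 12320768, 0, 0⟩
  m002 := ⟨0, 106299392, 0, 0⟩
  m010 := ⟨312183488512, 0, 0, 0⟩
  m100 := ⟨2975662080, 0, 0, 0⟩
  m101 := ⟨46202880, 0, 0, 0⟩
  m110 := ⟨514695233536, 0, 0, 0⟩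
  m200 := ⟨0, 92340224, 0, 0⟩
  m300 := ⟨16252928, 0, 0, 0⟩
  a00 := ⟨79708618752, 0, 0, 0⟩
  a01 := ⟨0, 12890013696, 0, 0⟩
  a02 := ⟨0, 412200796160, 0, 0⟩
  a03 := ⟨998452690944, 0, 0, 0⟩
  a10 := ⟨0, 19599686172672, 0, 0⟩
  a11 := ⟨27120394305536, 0, 0, 0⟩
  b00 := ⟨73455828992, 0, 0, 0⟩
  b01 := ⟨0, 15586689024, 0, 0⟩
  b02 := ⟨0, 370423824384, 0, 0⟩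
  b03 := ⟨891294580736, 0, 0, 0⟩
  b10 := ⟨0, 17942746103808, 0, 0⟩
  b11 := ⟨21454955610112, 0, 0, 0⟩
  t00 := ⟨772186308608, 0, 0, 0⟩
  t01 := ⟨0, 1190115016704, 0, 0⟩
  t02 := ⟨0, 2189558874112, 0, 0⟩
  t03 := ⟨8788806139904, 0, 0, 0⟩
  t10 := ⟨0, 165815573694464, 0, 0⟩
  t11 := ⟨310978905260032, 0, 0, 0⟩
  s00 := ⟨5697698201600, 0, 0, 0⟩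
  s01 := ⟨0, 6103054090240, 0, 0⟩
  s02 := ⟨0, 9812256227328, 0, 0⟩
  s03 := ⟨43355578892288, 0, 0, 0⟩
  s10 := ⟨0, 844663554187264, 0, 0⟩
  s11 := ⟨2090272004308992, 0, 0, 0⟩
  g00 := ⟨42346092416, 0, 0, 0⟩
  g01 := ⟨0, 45356611456, 0, 0⟩
  g10 := ⟨9319047959552, 0, 0, 0⟩
  g11 := ⟨0, 0, 0, 0⟩
  f00 := ⟨330953731904, 0, 0, 0⟩
  f01 := ⟨143008424768, 0, 0, 0⟩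
  f10 := ⟨94769588392320, 0, 0, 0⟩
  f11 := ⟨0, 0, 0, 0⟩
  l000 := ⟨0, 0, 0, 0⟩
  l001 := ⟨0, 0, 0, 0⟩
  l002 := ⟨0, 0, 0, 0⟩
  l010 := ⟨0, 0, 0, 0⟩
  l011 := ⟨0, 0, 0, 0⟩
  l020 := ⟨0, 0, 0, 0⟩
  l100 := ⟨0, 0, 0, 0⟩
  l101 := ⟨0, 0, 0, 0⟩
  l102 := ⟨0, 0, 0, 0⟩
  l110 := ⟨0, 0, 0, 0⟩
  l111 := ⟨0, 0, 0, 0⟩
  l120 := ⟨0, 0, 0, 0⟩
  l200 := ⟨0, 0, 0, 0⟩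
  l201 := ⟨0, 0, 0, 0⟩
  l210 := ⟨0, 0, 0, 0⟩
  l300 := ⟨0, 0, 0, 0⟩
  l301 := ⟨0, 0, 0, 0⟩
  l310 := ⟨0, 0, 0, 0⟩
  l400 := ⟨0, 0, 0, 0⟩
  l401 := ⟨0, 0, 0, 0⟩
  l410 := ⟨0, 0, 0, 0⟩
  l500 := ⟨0, 0, 0, 0⟩
  l501 := ⟨0, 0, 0, 0⟩
  l510 := ⟨0, 0, 0, 0⟩
  l600 := ⟨0, 0, 0, 0⟩
  l700 := ⟨0, 0, 0, 0⟩
  l800 := ⟨0, 0, 0, 0⟩
  l900 := ⟨0, 0, 0, 0⟩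
  l1000 := ⟨0, 0, 0, 0⟩
  l1100 := ⟨0, 0, 0, 0⟩
  q00 := ⟨0, 0, 0, 0⟩
  q01 := ⟨0, 0, 0, 0⟩
  q02 := ⟨0, 0, 0, 0⟩
  q03 := ⟨0, 0, 0, 0⟩
  q10 := ⟨0, 0, 0, 0⟩
  q11 := ⟨0, 0, 0, 0⟩
  q12 := ⟨0, 0, 0, 0⟩
  q20 := ⟨0, 0, 0, 0⟩
  q21 := ⟨0, 0, 0, 0⟩
  q30 := ⟨0, 0, 0, 0⟩
  n000 := ⟨0, 0, 0, 0⟩
  n001 := ⟨0, 0, 0, 0⟩
  n002 := ⟨0, 0, 0, 0⟩
  n010 := ⟨0, 0, 0, 0⟩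
  n011 := ⟨0, 0, 0, 0⟩
  n020 := ⟨0, 0, 0, 0⟩
  n100 := ⟨0, 0, 0, 0⟩
  n101 := ⟨0, 0, 0, 0⟩
  n110 := ⟨0, 0, 0, 0⟩
  n200 := ⟨0, 0, 0, 0⟩
  n201 := ⟨0, 0, 0, 0⟩
  n210 := ⟨0, 0, 0, 0⟩
  n300 := ⟨0, 0, 0, 0⟩
  n400 := ⟨0, 0, 0, 0⟩
  n500 := ⟨0, 0, 0, 0⟩
  e00 := ⟨0, 0, 0, 0⟩
  e01 := ⟨0, 0, 0, 0⟩
  e02 := ⟨0, 0, 0, 0⟩
  e03 := ⟨0, 0, 0, 0⟩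
  e10 := ⟨0, 0, 0, 0⟩
  e11 := ⟨0, 0, 0, 0⟩
  B1 := 0

def p5 : Pm where
  ec := ⟨5251268608, 0, 0, 0⟩
  bc := ⟨0, 0, 0, 0⟩
  nn := ⟨6597069766656, 0, 0, 0⟩
  tj := ⟨15393162788864, 0, 0, 0⟩
  ca := ⟨697126879232, 0, 0, 0⟩
  cb := ⟨638876385280, 0, 0, 0⟩
  cc := ⟨0, 0, 0, 0⟩
  ax := ⟨0, 0, 0, 0⟩
  ay := ⟨0, 0, 0, 0⟩
  xa := ⟨0, 0, 0, 0⟩
  C2 := ⟨0, 0, 0, 0⟩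
  wr := ⟨0, 877783941120, 0, 0⟩
  wi := ⟨6562978463744, 0, 0, 0⟩
  w1 := ⟨0, 91895120265216, 0, 0⟩
  h000 := ⟨0, 8936704960, 0, 0⟩
  h001 := ⟨0, 2618666560, 0, 0⟩
  h002 := ⟨5081778752, 0, 0, 0⟩
  h003 := ⟨0, 11999633664, 0, 0⟩
  h010 := ⟨0, 3052875267648, 0, 0⟩
  h011 := ⟨0, 1301615060096, 0, 0⟩
  h012 := ⟨0, 0, 0, 0⟩
  h020 := ⟨105109046697088, 0, 0, 0⟩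
  h021 := ⟨0, 0, 0, 0⟩
  h030 := ⟨0, 0, 0, 0⟩
  h100 := ⟨0, 963700160, 0, 0⟩
  h101 := ⟨1786633536, 0, 0, 0⟩
  h102 := ⟨0, 244094656, 0, 0⟩
  h110 := ⟨213244426880, 0, 0, 0⟩
  h111 := ⟨0, 474966930880, 0, 0⟩
  h120 := ⟨0, 0, 0, 0⟩
  h200 := ⟨523342592, 0, 0, 0⟩
  h201 := ⟨0, 317149824, 0, 0⟩
  h202 := ⟨194517440, 0, 0, 0⟩
  h210 := ⟨19468412736, 0, 0, 0⟩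
  h211 := ⟨0, 0, 0, 0⟩
  h300 := ⟨0, 90202496, 0, 0⟩
  h301 := ⟨20961984, 0, 0, 0⟩
  h310 := ⟨0, 8108527296, 0, 0⟩
  h400 := ⟨9194176, 0, 0, 0⟩
  h401 := ⟨0, 607552, 0, 0⟩
  h410 := ⟨0, 0, 0, 0⟩
  h500 := ⟨0, 580288, 0, 0⟩
  h501 := ⟨0, 0, 0, 0⟩
  h600 := ⟨16704, 0, 0, 0⟩
  h700 := ⟨0, 0, 0, 0⟩
  h800 := ⟨0, 0, 0, 0⟩
  m000 := ⟨1098984325120, 0, 0, 0⟩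
  m001 := ⟨0, 87687168, 0, 0⟩
  m002 := ⟨0, 273022976, 0, 0⟩
  m010 := ⟨314271268864, 0, 0, 0⟩
  m100 := ⟨2908553216, 0, 0, 0⟩
  m101 := ⟨57999360, 0, 0, 0⟩
  m110 := ⟨516393271296, 0, 0, 0⟩
  m200 := ⟨0, 77004800, 0, 0⟩
  m300 := ⟨14286848, 0, 0, 0⟩
  a00 := ⟨73455828992, 0, 0, 0⟩
  a01 := ⟨0, 15586689024, 0, 0⟩
  a02 := ⟨0, 370423824384, 0, 0⟩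
  a03 := ⟨891294580736, 0, 0, 0⟩
  a10 := ⟨0, 17942746103808, 0, 0⟩
  a11 := ⟨21454955610112, 0, 0, 0⟩
  b00 := ⟨67830415360, 0, 0, 0⟩
  b01 := ⟨0, 17725784064, 0, 0⟩
  b02 := ⟨0, 335539732480, 0, 0⟩
  b03 := ⟨806038601728, 0, 0, 0⟩
  b10 := ⟨0, 16667084324864, 0, 0⟩
  b11 := ⟨17988188700672, 0, 0, 0⟩
  t00 := ⟨711917830144, 0, 0, 0⟩
  t01 := ⟨0, 1090351202304, 0, 0⟩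
  t02 := ⟨0, 1927027359744, 0, 0⟩
  t03 := ⟨7654930907136, 0, 0, 0⟩
  t10 := ⟨0, 152393584232448, 0, 0⟩
  t11 := ⟨252762894581760, 0, 0, 0⟩
  s00 := ⟨6469884510208, 0, 0, 0⟩
  s01 := ⟨0, 7293169106944, 0, 0⟩
  s02 := ⟨0, 12001815101440, 0, 0⟩
  s03 := ⟨52144385032192, 0, 0, 0⟩
  s10 := ⟨0, 1010479127881728, 0, 0⟩
  s11 := ⟨2401250909569024, 0, 0, 0⟩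
  g00 := ⟨42346092416, 0, 0, 0⟩
  g01 := ⟨0, 45356611456, 0, 0⟩
  g10 := ⟨9319047959552, 0, 0, 0⟩
  g11 := ⟨0, 0, 0, 0⟩
  f00 := ⟨330953731904, 0, 0, 0⟩
  f01 := ⟨143008424768, 0, 0, 0⟩
  f10 := ⟨94769588392320, 0, 0, 0⟩
  f11 := ⟨0, 0, 0, 0⟩
  l000 := ⟨0, 0, 0, 0⟩
  l001 := ⟨0, 0, 0, 0⟩
  l002 := ⟨0, 0, 0, 0⟩
  l010 := ⟨0, 0, 0, 0⟩
  l011 := ⟨0, 0, 0, 0⟩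
  l020 := ⟨0, 0, 0, 0⟩
  l100 := ⟨0, 0, 0, 0⟩
  l101 := ⟨0, 0, 0, 0⟩
  l102 := ⟨0, 0, 0, 0⟩
  l110 := ⟨0, 0, 0, 0⟩
  l111 := ⟨0, 0, 0, 0⟩
  l120 := ⟨0, 0, 0, 0⟩
  l200 := ⟨0, 0, 0, 0⟩
  l201 := ⟨0, 0, 0, 0⟩
  l210 := ⟨0, 0, 0, 0⟩
  l300 := ⟨0, 0, 0, 0⟩
  l301 := ⟨0, 0, 0, 0⟩
  l310 := ⟨0, 0, 0, 0⟩
  l400 := ⟨0, 0, 0, 0⟩
  l401 := ⟨0, 0, 0, 0⟩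
  l410 := ⟨0, 0, 0, 0⟩
  l500 := ⟨0, 0, 0, 0⟩
  l501 := ⟨0, 0, 0, 0⟩
  l510 := ⟨0, 0, 0, 0⟩
  l600 := ⟨0, 0, 0, 0⟩
  l700 := ⟨0, 0, 0, 0⟩
  l800 := ⟨0, 0, 0, 0⟩
  l900 := ⟨0, 0, 0, 0⟩
  l1000 := ⟨0, 0, 0, 0⟩
  l1100 := ⟨0, 0, 0, 0⟩
  q00 := ⟨0, 0, 0, 0⟩
  q01 := ⟨0, 0, 0, 0⟩
  q02 := ⟨0, 0, 0, 0⟩
  q03 := ⟨0, 0, 0, 0⟩
  q10 := ⟨0, 0, 0, 0⟩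
  q11 := ⟨0, 0, 0, 0⟩
  q12 := ⟨0, 0, 0, 0⟩
  q20 := ⟨0, 0, 0, 0⟩
  q21 := ⟨0, 0, 0, 0⟩
  q30 := ⟨0, 0, 0, 0⟩
  n000 := ⟨0, 0, 0, 0⟩
  n001 := ⟨0, 0, 0, 0⟩
  n002 := ⟨0, 0, 0, 0⟩
  n010 := ⟨0, 0, 0, 0⟩
  n011 := ⟨0, 0, 0, 0⟩
  n020 := ⟨0, 0, 0, 0⟩
  n100 := ⟨0, 0, 0, 0⟩
  n101 := ⟨0, 0, 0, 0⟩
  n110 := ⟨0, 0, 0, 0⟩
  n200 := ⟨0, 0, 0, 0⟩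
  n201 := ⟨0, 0, 0, 0⟩
  n210 := ⟨0, 0, 0, 0⟩
  n300 := ⟨0, 0, 0, 0⟩
  n400 := ⟨0, 0, 0, 0⟩
  n500 := ⟨0, 0, 0, 0⟩
  e00 := ⟨0, 0, 0, 0⟩
  e01 := ⟨0, 0, 0, 0⟩
  e02 := ⟨0, 0, 0, 0⟩
  e03 := ⟨0, 0, 0, 0⟩
  e10 := ⟨0, 0, 0, 0⟩
  e11 := ⟨0, 0, 0, 0⟩
  B1 := 0

def p6 : Pm where
  ec := ⟨5251268608, 0, 0, 0⟩
  bc := ⟨0, 0, 0, 0⟩
  nn := ⟨7696581394432, 0, 0, 0⟩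
  tj := ⟨17592186044416, 0, 0, 0⟩
  ca := ⟨638876385280, 0, 0, 0⟩
  cb := ⟨580625891328, 0, 0, 0⟩
  cc := ⟨0, 0, 0, 0⟩
  ax := ⟨0, 0, 0, 0⟩
  ay := ⟨0, 0, 0, 0⟩
  xa := ⟨0, 0, 0, 0⟩
  C2 := ⟨0, 0, 0, 0⟩
  wr := ⟨0, 877783941120, 0, 0⟩
  wi := ⟨6562978463744, 0, 0, 0⟩
  w1 := ⟨0, 91895120265216, 0, 0⟩
  h000 := ⟨0, 8936704960, 0, 0⟩
  h001 := ⟨0, 2618666560, 0, 0⟩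
  h002 := ⟨5081778752, 0, 0, 0⟩
  h003 := ⟨0, 11999633664, 0, 0⟩
  h010 := ⟨0, 3052875267648, 0, 0⟩
  h011 := ⟨0, 1301615060096, 0, 0⟩
  h012 := ⟨0, 0, 0, 0⟩
  h020 := ⟨105109046697088, 0, 0, 0⟩
  h021 := ⟨0, 0, 0, 0⟩
  h030 := ⟨0, 0, 0, 0⟩
  h100 := ⟨0, 963700160, 0, 0⟩
  h101 := ⟨1786633536, 0, 0, 0⟩
  h102 := ⟨0, 244094656, 0, 0⟩
  h110 := ⟨213244426880, 0, 0, 0⟩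
  h111 := ⟨0, 474966930880, 0, 0⟩
  h120 := ⟨0, 0, 0, 0⟩
  h200 := ⟨523342592, 0, 0, 0⟩
  h201 := ⟨0, 317149824, 0, 0⟩
  h202 := ⟨194517440, 0, 0, 0⟩
  h210 := ⟨19468412736, 0, 0, 0⟩
  h211 := ⟨0, 0, 0, 0⟩
  h300 := ⟨0, 90202496, 0, 0⟩
  h301 := ⟨20961984, 0, 0, 0⟩
  h310 := ⟨0, 8108527296, 0, 0⟩
  h400 := ⟨9194176, 0, 0, 0⟩
  h401 := ⟨0, 607552, 0, 0⟩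
  h410 := ⟨0, 0, 0, 0⟩
  h500 := ⟨0, 580288, 0, 0⟩
  h501 := ⟨0, 0, 0, 0⟩
  h600 := ⟨16704, 0, 0, 0⟩
  h700 := ⟨0, 0, 0, 0⟩
  h800 := ⟨0, 0, 0, 0⟩
  m000 := ⟨1099117101056, 0, 0, 0⟩
  m001 := ⟨0, 48431104, 0, 0⟩
  m002 := ⟨0, 621740032, 0, 0⟩
  m010 := ⟨288774815744, 0, 0, 0⟩
  m100 := ⟨2854027264, 0, 0, 0⟩
  m101 := ⟨66519040, 0, 0, 0⟩
  m110 := ⟨518669008896, 0, 0, 0⟩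
  m200 := ⟨0, 64684032, 0, 0⟩
  m300 := ⟨12451840, 0, 0, 0⟩
  a00 := ⟨67830415360, 0, 0, 0⟩
  a01 := ⟨0, 17725784064, 0, 0⟩
  a02 := ⟨0, 335539732480, 0, 0⟩
  a03 := ⟨806038601728, 0, 0, 0⟩
  a10 := ⟨0, 16667084324864, 0, 0⟩
  a11 := ⟨17988188700672, 0, 0, 0⟩
  b00 := ⟨62677319680, 0, 0, 0⟩
  b01 := ⟨0, 19949551616, 0, 0⟩
  b02 := ⟨0, 300369313792, 0, 0⟩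
  b03 := ⟨723486769152, 0, 0, 0⟩
  b10 := ⟨0, 15692803473408, 0, 0⟩
  b11 := ⟨16456633679872, 0, 0, 0⟩
  t00 := ⟨657643667456, 0, 0, 0⟩
  t01 := ⟨0, 989138780160, 0, 0⟩
  t02 := ⟨0, 1780942831616, 0, 0⟩
  t03 := ⟨6799651569664, 0, 0, 0⟩
  t10 := ⟨0, 141894076024832, 0, 0⟩
  t11 := ⟨215686066028544, 0, 0, 0⟩
  s00 := ⟨7181802340352, 0, 0, 0⟩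
  s01 := ⟨0, 8383520309248, 0, 0⟩
  s02 := ⟨0, 13928842461184, 0, 0⟩
  s03 := ⟨59799315939328, 0, 0, 0⟩
  s10 := ⟨0, 1162872712114176, 0, 0⟩
  s11 := ⟨2654013804150784, 0, 0, 0⟩
  g00 := ⟨42346092416, 0, 0, 0⟩
  g01 := ⟨0, 45356611456, 0, 0⟩
  g10 := ⟨9319047959552, 0, 0, 0⟩
  g11 := ⟨0, 0, 0, 0⟩
  f00 := ⟨330953731904, 0, 0, 0⟩
  f01 := ⟨143008424768, 0, 0, 0⟩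
  f10 := ⟨94769588392320, 0, 0, 0⟩
  f11 := ⟨0, 0, 0, 0⟩
  l000 := ⟨0, 0, 0, 0⟩
  l001 := ⟨0, 0, 0, 0⟩
  l002 := ⟨0, 0, 0, 0⟩
  l010 := ⟨0, 0, 0, 0⟩
  l011 := ⟨0, 0, 0, 0⟩
  l020 := ⟨0, 0, 0, 0⟩
  l100 := ⟨0, 0, 0, 0⟩
  l101 := ⟨0, 0, 0, 0⟩
  l102 := ⟨0, 0, 0, 0⟩
  l110 := ⟨0, 0, 0, 0⟩
  l111 := ⟨0, 0, 0, 0⟩
  l120 := ⟨0, 0, 0, 0⟩
  l200 := ⟨0, 0, 0, 0⟩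
  l201 := ⟨0, 0, 0, 0⟩
  l210 := ⟨0, 0, 0, 0⟩
  l300 := ⟨0, 0, 0, 0⟩
  l301 := ⟨0, 0, 0, 0⟩
  l310 := ⟨0, 0, 0, 0⟩
  l400 := ⟨0, 0, 0, 0⟩
  l401 := ⟨0, 0, 0, 0⟩
  l410 := ⟨0, 0, 0, 0⟩
  l500 := ⟨0, 0, 0, 0⟩
  l501 := ⟨0, 0, 0, 0⟩
  l510 := ⟨0, 0, 0, 0⟩
  l600 := ⟨0, 0, 0, 0⟩
  l700 := ⟨0, 0, 0, 0⟩
  l800 := ⟨0, 0, 0, 0⟩
  l900 := ⟨0, 0, 0, 0⟩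
  l1000 := ⟨0, 0, 0, 0⟩
  l1100 := ⟨0, 0, 0, 0⟩
  q00 := ⟨0, 0, 0, 0⟩
  q01 := ⟨0, 0, 0, 0⟩
  q02 := ⟨0, 0, 0, 0⟩
  q03 := ⟨0, 0, 0, 0⟩
  q10 := ⟨0, 0, 0, 0⟩
  q11 := ⟨0, 0, 0, 0⟩
  q12 := ⟨0, 0, 0, 0⟩
  q20 := ⟨0, 0, 0, 0⟩
  q21 := ⟨0, 0, 0, 0⟩
  q30 := ⟨0, 0, 0, 0⟩
  n000 := ⟨0, 0, 0, 0⟩
  n001 := ⟨0, 0, 0, 0⟩
  n002 := ⟨0, 0, 0, 0⟩
  n010 := ⟨0, 0, 0, 0⟩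
  n011 := ⟨0, 0, 0, 0⟩
  n020 := ⟨0, 0, 0, 0⟩
  n100 := ⟨0, 0, 0, 0⟩
  n101 := ⟨0, 0, 0, 0⟩
  n110 := ⟨0, 0, 0, 0⟩
  n200 := ⟨0, 0, 0, 0⟩
  n201 := ⟨0, 0, 0, 0⟩
  n210 := ⟨0, 0, 0, 0⟩
  n300 := ⟨0, 0, 0, 0⟩
  n400 := ⟨0, 0, 0, 0⟩
  n500 := ⟨0, 0, 0, 0⟩
  e00 := ⟨0, 0, 0, 0⟩
  e01 := ⟨0, 0, 0, 0⟩
  e02 := ⟨0, 0, 0, 0⟩
  e03 := ⟨0, 0, 0, 0⟩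
  e10 := ⟨0, 0, 0, 0⟩
  e11 := ⟨0, 0, 0, 0⟩
  B1 := 0

def p7 : Pm where
  ec := ⟨5251268608, 0, 0, 0⟩
  bc := ⟨0, 0, 0, 0⟩
  nn := ⟨8796093022208, 0, 0, 0⟩
  tj := ⟨19791209299968, 0, 0, 0⟩
  ca := ⟨580625891328, 0, 0, 0⟩
  cb := ⟨522375397376, 0, 0, 0⟩
  cc := ⟨0, 0, 0, 0⟩
  ax := ⟨0, 0, 0, 0⟩
  ay := ⟨0, 0, 0, 0⟩
  xa := ⟨0, 0, 0, 0⟩
  C2 := ⟨0, 0, 0, 0⟩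
  wr := ⟨0, 877783941120, 0, 0⟩
  wi := ⟨6562978463744, 0, 0, 0⟩
  w1 := ⟨0, 91895120265216, 0, 0⟩
  h000 := ⟨0, 8936704960, 0, 0⟩
  h001 := ⟨0, 2618666560, 0, 0⟩
  h002 := ⟨5081778752, 0, 0, 0⟩
  h003 := ⟨0, 11999633664, 0, 0⟩
  h010 := ⟨0, 3052875267648, 0, 0⟩
  h011 := ⟨0, 1301615060096, 0, 0⟩
  h012 := ⟨0, 0, 0, 0⟩
  h020 := ⟨105109046697088, 0, 0, 0⟩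
  h021 := ⟨0, 0, 0, 0⟩
  h030 := ⟨0, 0, 0, 0⟩
  h100 := ⟨0, 963700160, 0, 0⟩
  h101 := ⟨1786633536, 0, 0, 0⟩
  h102 := ⟨0, 244094656, 0, 0⟩
  h110 := ⟨213244426880, 0, 0, 0⟩
  h111 := ⟨0, 474966930880, 0, 0⟩
  h120 := ⟨0, 0, 0, 0⟩
  h200 := ⟨523342592, 0, 0, 0⟩
  h201 := ⟨0, 317149824, 0, 0⟩
  h202 := ⟨194517440, 0, 0, 0⟩
  h210 := ⟨19468412736, 0, 0, 0⟩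
  h211 := ⟨0, 0, 0, 0⟩
  h300 := ⟨0, 90202496, 0, 0⟩
  h301 := ⟨20961984, 0, 0, 0⟩
  h310 := ⟨0, 8108527296, 0, 0⟩
  h400 := ⟨9194176, 0, 0, 0⟩
  h401 := ⟨0, 607552, 0, 0⟩
  h410 := ⟨0, 0, 0, 0⟩
  h500 := ⟨0, 580288, 0, 0⟩
  h501 := ⟨0, 0, 0, 0⟩
  h600 := ⟨16704, 0, 0, 0⟩
  h700 := ⟨0, 0, 0, 0⟩
  h800 := ⟨0, 0, 0, 0⟩
  m000 := ⟨1099241029632, 0, 0, 0⟩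
  m001 := ⟨19333120, 0, 0, 0⟩
  m002 := ⟨0, 866516992, 0, 0⟩
  m010 := ⟨272134569984, 0, 0, 0⟩
  m100 := ⟨2804350976, 0, 0, 0⟩
  m101 := ⟨62128128, 0, 0, 0⟩
  m110 := ⟨521625534464, 0, 0, 0⟩
  m200 := ⟨0, 52494336, 0, 0⟩
  m300 := ⟨10747904, 0, 0, 0⟩
  a00 := ⟨62677319680, 0, 0, 0⟩
  a01 := ⟨0, 19949551616, 0, 0⟩
  a02 := ⟨0, 300369313792, 0, 0⟩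
  a03 := ⟨723486769152, 0, 0, 0⟩
  a10 := ⟨0, 15692803473408, 0, 0⟩
  a11 := ⟨16456633679872, 0, 0, 0⟩
  b00 := ⟨57863372800, 0, 0, 0⟩
  b01 := ⟨0, 21302411264, 0, 0⟩
  b02 := ⟨0, 273888116736, 0, 0⟩
  b03 := ⟨665942884352, 0, 0, 0⟩
  b10 := ⟨0, 14896483794944, 0, 0⟩
  b11 := ⟨15855458582528, 0, 0, 0⟩
  t00 := ⟨608365117440, 0, 0, 0⟩
  t01 := ⟨0, 900715184128, 0, 0⟩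
  t02 := ⟨0, 1685485715456, 0, 0⟩
  t03 := ⟨6216189607936, 0, 0, 0⟩
  t10 := ⟨0, 134575507064832, 0, 0⟩
  t11 := ⟨197728077824000, 0, 0, 0⟩
  s00 := ⟨7839446007808, 0, 0, 0⟩
  s01 := ⟨0, 9372659089408, 0, 0⟩
  s02 := ⟨0, 15709785292800, 0, 0⟩
  s03 := ⟨66598967508992, 0, 0, 0⟩
  s10 := ⟨0, 1304766788139008, 0, 0⟩
  s11 := ⟨2869699870179328, 0, 0, 0⟩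
  g00 := ⟨42346092416, 0, 0, 0⟩
  g01 := ⟨0, 45356611456, 0, 0⟩
  g10 := ⟨9319047959552, 0, 0, 0⟩
  g11 := ⟨0, 0, 0, 0⟩
  f00 := ⟨330953731904, 0, 0, 0⟩
  f01 := ⟨143008424768, 0, 0, 0⟩
  f10 := ⟨94769588392320, 0, 0, 0⟩
  f11 := ⟨0, 0, 0, 0⟩
  l000 := ⟨0, 0, 0, 0⟩
  l001 := ⟨0, 0, 0, 0⟩
  l002 := ⟨0, 0, 0, 0⟩
  l010 := ⟨0, 0, 0, 0⟩
  l011 := ⟨0, 0, 0, 0⟩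
  l020 := ⟨0, 0, 0, 0⟩
  l100 := ⟨0, 0, 0, 0⟩
  l101 := ⟨0, 0, 0, 0⟩
  l102 := ⟨0, 0, 0, 0⟩
  l110 := ⟨0, 0, 0, 0⟩
  l111 := ⟨0, 0, 0, 0⟩
  l120 := ⟨0, 0, 0, 0⟩
  l200 := ⟨0, 0, 0, 0⟩
  l201 := ⟨0, 0, 0, 0⟩
  l210 := ⟨0, 0, 0, 0⟩
  l300 := ⟨0, 0, 0, 0⟩
  l301 := ⟨0, 0, 0, 0⟩
  l310 := ⟨0, 0, 0, 0⟩
  l400 := ⟨0, 0, 0, 0⟩
  l401 := ⟨0, 0, 0, 0⟩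
  l410 := ⟨0, 0, 0, 0⟩
  l500 := ⟨0, 0, 0, 0⟩
  l501 := ⟨0, 0, 0, 0⟩
  l510 := ⟨0, 0, 0, 0⟩
  l600 := ⟨0, 0, 0, 0⟩
  l700 := ⟨0, 0, 0, 0⟩
  l800 := ⟨0, 0, 0, 0⟩
  l900 := ⟨0, 0, 0, 0⟩
  l1000 := ⟨0, 0, 0, 0⟩
  l1100 := ⟨0, 0, 0, 0⟩
  q00 := ⟨0, 0, 0, 0⟩
  q01 := ⟨0, 0, 0, 0⟩
  q02 := ⟨0, 0, 0, 0⟩
  q03 := ⟨0, 0, 0, 0⟩
  q10 := ⟨0, 0, 0, 0⟩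
  q11 := ⟨0, 0, 0, 0⟩
  q12 := ⟨0, 0, 0, 0⟩
  q20 := ⟨0, 0, 0, 0⟩
  q21 := ⟨0, 0, 0, 0⟩
  q30 := ⟨0, 0, 0, 0⟩
  n000 := ⟨0, 0, 0, 0⟩
  n001 := ⟨0, 0, 0, 0⟩
  n002 := ⟨0, 0, 0, 0⟩
  n010 := ⟨0, 0, 0, 0⟩
  n011 := ⟨0, 0, 0, 0⟩
  n020 := ⟨0, 0, 0, 0⟩
  n100 := ⟨0, 0, 0, 0⟩
  n101 := ⟨0, 0, 0, 0⟩
  n110 := ⟨0, 0, 0, 0⟩
  n200 := ⟨0, 0, 0, 0⟩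
  n201 := ⟨0, 0, 0, 0⟩
  n210 := ⟨0, 0, 0, 0⟩
  n300 := ⟨0, 0, 0, 0⟩
  n400 := ⟨0, 0, 0, 0⟩
  n500 := ⟨0, 0, 0, 0⟩
  e00 := ⟨0, 0, 0, 0⟩
  e01 := ⟨0, 0, 0, 0⟩
  e02 := ⟨0, 0, 0, 0⟩
  e03 := ⟨0, 0, 0, 0⟩
  e10 := ⟨0, 0, 0, 0⟩
  e11 := ⟨0, 0, 0, 0⟩
  B1 := 0

def p8 : Pm where
  ec := ⟨5251268608, 0, 0, 0⟩
  bc := ⟨0, 0, 0, 0⟩
  nn := ⟨9895604649984, 0, 0, 0⟩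
  tj := ⟨21990232555520, 0, 0, 0⟩
  ca := ⟨522375397376, 0, 0, 0⟩
  cb := ⟨464124903424, 0, 0, 0⟩
  cc := ⟨0, 0, 0, 0⟩
  ax := ⟨0, 0, 0, 0⟩
  ay := ⟨0, 0, 0, 0⟩
  xa := ⟨0, 0, 0, 0⟩
  C2 := ⟨0, 0, 0, 0⟩
  wr := ⟨0, 877783941120, 0, 0⟩
  wi := ⟨6562978463744, 0, 0, 0⟩
  w1 := ⟨0, 91895120265216, 0, 0⟩
  h000 := ⟨0, 8936704960, 0, 0⟩
  h001 := ⟨0, 2618666560, 0, 0⟩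
  h002 := ⟨5081778752, 0, 0, 0⟩
  h003 := ⟨0, 11999633664, 0, 0⟩
  h010 := ⟨0, 3052875267648, 0, 0⟩
  h011 := ⟨0, 1301615060096, 0, 0⟩
  h012 := ⟨0, 0, 0, 0⟩
  h020 := ⟨105109046697088, 0, 0, 0⟩
  h021 := ⟨0, 0, 0, 0⟩
  h030 := ⟨0, 0, 0, 0⟩
  h100 := ⟨0, 963700160, 0, 0⟩
  h101 := ⟨1786633536, 0, 0, 0⟩
  h102 := ⟨0, 244094656, 0, 0⟩
  h110 := ⟨213244426880, 0, 0, 0⟩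
  h111 := ⟨0, 474966930880, 0, 0⟩
  h120 := ⟨0, 0, 0, 0⟩
  h200 := ⟨523342592, 0, 0, 0⟩
  h201 := ⟨0, 317149824, 0, 0⟩
  h202 := ⟨194517440, 0, 0, 0⟩
  h210 := ⟨19468412736, 0, 0, 0⟩
  h211 := ⟨0, 0, 0, 0⟩
  h300 := ⟨0, 90202496, 0, 0⟩
  h301 := ⟨20961984, 0, 0, 0⟩
  h310 := ⟨0, 8108527296, 0, 0⟩
  h400 := ⟨9194176, 0, 0, 0⟩
  h401 := ⟨0, 607552, 0, 0⟩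
  h410 := ⟨0, 0, 0, 0⟩
  h500 := ⟨0, 580288, 0, 0⟩
  h501 := ⟨0, 0, 0, 0⟩
  h600 := ⟨16704, 0, 0, 0⟩
  h700 := ⟨0, 0, 0, 0⟩
  h800 := ⟨0, 0, 0, 0⟩
  m000 := ⟨1099345690624, 0, 0, 0⟩
  m001 := ⟨155254784, 0, 0, 0⟩
  m002 := ⟨0, 1156513792, 0, 0⟩
  m010 := ⟨246229499904, 0, 0, 0⟩
  m100 := ⟨2764111872, 0, 0, 0⟩
  m101 := ⟨49020928, 0, 0, 0⟩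
  m110 := ⟨524079923200, 0, 0, 0⟩
  m200 := ⟨0, 42598400, 0, 0⟩
  m300 := ⟨9240576, 0, 0, 0⟩
  a00 := ⟨57863372800, 0, 0, 0⟩
  a01 := ⟨0, 21302411264, 0, 0⟩
  a02 := ⟨0, 273888116736, 0, 0⟩
  a03 := ⟨665942884352, 0, 0, 0⟩
  a10 := ⟨0, 14896483794944, 0, 0⟩
  a11 := ⟨15855458582528, 0, 0, 0⟩
  b00 := ⟨53335490560, 0, 0, 0⟩
  b01 := ⟨0, 22261792768, 0, 0⟩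
  b02 := ⟨0, 247988682752, 0, 0⟩
  b03 := ⟨609543782400, 0, 0, 0⟩
  b10 := ⟨0, 14140982951936, 0, 0⟩
  b11 := ⟨15524291608576, 0, 0, 0⟩
  t00 := ⟨562261786624, 0, 0, 0⟩
  t01 := ⟨0, 817916149760, 0, 0⟩
  t02 := ⟨0, 1631405735936, 0, 0⟩
  t03 := ⟨5811938394112, 0, 0, 0⟩
  t10 := ⟨0, 128325159569408, 0, 0⟩
  t11 := ⟨186508429967360, 0, 0, 0⟩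
  s00 := ⟨8447811125248, 0, 0, 0⟩
  s01 := ⟨0, 10273374273536, 0, 0⟩
  s02 := ⟨0, 17395271008256, 0, 0⟩
  s03 := ⟨72815157116928, 0, 0, 0⟩
  s10 := ⟨0, 1439342295203840, 0, 0⟩
  s11 := ⟨3067427948003328, 0, 0, 0⟩
  g00 := ⟨42346092416, 0, 0, 0⟩
  g01 := ⟨0, 45356611456, 0, 0⟩
  g10 := ⟨9319047959552, 0, 0, 0⟩
  g11 := ⟨0, 0, 0, 0⟩
  f00 := ⟨330953731904, 0, 0, 0⟩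
  f01 := ⟨143008424768, 0, 0, 0⟩
  f10 := ⟨94769588392320, 0, 0, 0⟩
  f11 := ⟨0, 0, 0, 0⟩
  l000 := ⟨0, 0, 0, 0⟩
  l001 := ⟨0, 0, 0, 0⟩
  l002 := ⟨0, 0, 0, 0⟩
  l010 := ⟨0, 0, 0, 0⟩
  l011 := ⟨0, 0, 0, 0⟩
  l020 := ⟨0, 0, 0, 0⟩
  l100 := ⟨0, 0, 0, 0⟩
  l101 := ⟨0, 0, 0, 0⟩
  l102 := ⟨0, 0, 0, 0⟩
  l110 := ⟨0, 0, 0, 0⟩
  l111 := ⟨0, 0, 0, 0⟩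
  l120 := ⟨0, 0, 0, 0⟩
  l200 := ⟨0, 0, 0, 0⟩
  l201 := ⟨0, 0, 0, 0⟩
  l210 := ⟨0, 0, 0, 0⟩
  l300 := ⟨0, 0, 0, 0⟩
  l301 := ⟨0, 0, 0, 0⟩
  l310 := ⟨0, 0, 0, 0⟩
  l400 := ⟨0, 0, 0, 0⟩
  l401 := ⟨0, 0, 0, 0⟩
  l410 := ⟨0, 0, 0, 0⟩
  l500 := ⟨0, 0, 0, 0⟩
  l501 := ⟨0, 0, 0, 0⟩
  l510 := ⟨0, 0, 0, 0⟩
  l600 := ⟨0, 0, 0, 0⟩
  l700 := ⟨0, 0, 0, 0⟩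
  l800 := ⟨0, 0, 0, 0⟩
  l900 := ⟨0, 0, 0, 0⟩
  l1000 := ⟨0, 0, 0, 0⟩
  l1100 := ⟨0, 0, 0, 0⟩
  q00 := ⟨0, 0, 0, 0⟩
  q01 := ⟨0, 0, 0, 0⟩
  q02 := ⟨0, 0, 0, 0⟩
  q03 := ⟨0, 0, 0, 0⟩
  q10 := ⟨0, 0, 0, 0⟩
  q11 := ⟨0, 0, 0, 0⟩
  q12 := ⟨0, 0, 0, 0⟩
  q20 := ⟨0, 0, 0, 0⟩
  q21 := ⟨0, 0, 0, 0⟩
  q30 := ⟨0, 0, 0, 0⟩
  n000 := ⟨0, 0, 0, 0⟩
  n001 := ⟨0, 0, 0, 0⟩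
  n002 := ⟨0, 0, 0, 0⟩
  n010 := ⟨0, 0, 0, 0⟩
  n011 := ⟨0, 0, 0, 0⟩
  n020 := ⟨0, 0, 0, 0⟩
  n100 := ⟨0, 0, 0, 0⟩
  n101 := ⟨0, 0, 0, 0⟩
  n110 := ⟨0, 0, 0, 0⟩
  n200 := ⟨0, 0, 0, 0⟩
  n201 := ⟨0, 0, 0, 0⟩
  n210 := ⟨0, 0, 0, 0⟩
  n300 := ⟨0, 0, 0, 0⟩
  n400 := ⟨0, 0, 0, 0⟩
  n500 := ⟨0, 0, 0, 0⟩
  e00 := ⟨0, 0, 0, 0⟩
  e01 := ⟨0, 0, 0, 0⟩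
  e02 := ⟨0, 0, 0, 0⟩
  e03 := ⟨0, 0, 0, 0⟩
  e10 := ⟨0, 0, 0, 0⟩
  e11 := ⟨0, 0, 0, 0⟩
  B1 := 0

def p9 : Pm where
  ec := ⟨5251268608, 0, 0, 0⟩
  bc := ⟨0, 0, 0, 0⟩
  nn := ⟨10995116277760, 0, 0, 0⟩
  tj := ⟨24189255811072, 0, 0, 0⟩
  ca := ⟨464124903424, 0, 0, 0⟩
  cb := ⟨405605974016, 0, 0, 0⟩
  cc := ⟨0, 0, 0, 0⟩
  ax := ⟨0, 0, 0, 0⟩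
  ay := ⟨0, 0, 0, 0⟩
  xa := ⟨0, 0, 0, 0⟩
  C2 := ⟨0, 0, 0, 0⟩
  wr := ⟨0, 877783941120, 0, 0⟩
  wi := ⟨6562978463744, 0, 0, 0⟩
  w1 := ⟨0, 91895120265216, 0, 0⟩
  h000 := ⟨0, 8936704960, 0, 0⟩
  h001 := ⟨0, 2618666560, 0, 0⟩
  h002 := ⟨5081778752, 0, 0, 0⟩
  h003 := ⟨0, 11999633664, 0, 0⟩
  h010 := ⟨0, 3052875267648, 0, 0⟩
  h011 := ⟨0, 1301615060096, 0, 0⟩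
  h012 := ⟨0, 0, 0, 0⟩
  h020 := ⟨105109046697088, 0, 0, 0⟩
  h021 := ⟨0, 0, 0, 0⟩
  h030 := ⟨0, 0, 0, 0⟩
  h100 := ⟨0, 963700160, 0, 0⟩
  h101 := ⟨1786633536, 0, 0, 0⟩
  h102 := ⟨0, 244094656, 0, 0⟩
  h110 := ⟨213244426880, 0, 0, 0⟩
  h111 := ⟨0, 474966930880, 0, 0⟩
  h120 := ⟨0, 0, 0, 0⟩
  h200 := ⟨523342592, 0, 0, 0⟩
  h201 := ⟨0, 317149824, 0, 0⟩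
  h202 := ⟨194517440, 0, 0, 0⟩
  h210 := ⟨19468412736, 0, 0, 0⟩
  h211 := ⟨0, 0, 0, 0⟩
  h300 := ⟨0, 90202496, 0, 0⟩
  h301 := ⟨20961984, 0, 0, 0⟩
  h310 := ⟨0, 8108527296, 0, 0⟩
  h400 := ⟨9194176, 0, 0, 0⟩
  h401 := ⟨0, 607552, 0, 0⟩
  h410 := ⟨0, 0, 0, 0⟩
  h500 := ⟨0, 580288, 0, 0⟩
  h501 := ⟨0, 0, 0, 0⟩
  h600 := ⟨16704, 0, 0, 0⟩
  h700 := ⟨0, 0, 0, 0⟩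
  h800 := ⟨0, 0, 0, 0⟩
  m000 := ⟨1099472306176, 0, 0, 0⟩
  m001 := ⟨265224192, 0, 0, 0⟩
  m002 := ⟨0, 1431896064, 0, 0⟩
  m010 := ⟨234486824960, 0, 0, 0⟩
  m100 := ⟨2725249024, 0, 0, 0⟩
  m101 := ⟨32964608, 0, 0, 0⟩
  m110 := ⟨525011845120, 0, 0, 0⟩
  m200 := ⟨0, 32636928, 0, 0⟩
  m300 := ⟨7667712, 0, 0, 0⟩
  a00 := ⟨53335490560, 0, 0, 0⟩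
  a01 := ⟨0, 22261792768, 0, 0⟩
  a02 := ⟨0, 247988682752, 0, 0⟩
  a03 := ⟨609543782400, 0, 0, 0⟩
  a10 := ⟨0, 14140982951936, 0, 0⟩
  a11 := ⟨15524291608576, 0, 0, 0⟩
  b00 := ⟨49071587328, 0, 0, 0⟩
  b01 := ⟨0, 22453288960, 0, 0⟩
  b02 := ⟨0, 226772254720, 0, 0⟩
  b03 := ⟨563455000576, 0, 0, 0⟩
  b10 := ⟨0, 13425221828608, 0, 0⟩
  b11 := ⟨15310035877888, 0, 0, 0⟩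
  t00 := ⟨518849691648, 0, 0, 0⟩
  t01 := ⟨0, 744232189952, 0, 0⟩
  t02 := ⟨0, 1554104713216, 0, 0⟩
  t03 := ⟨5413222285312, 0, 0, 0⟩
  t10 := ⟨0, 122153641658368, 0, 0⟩
  t11 := ⟨177449211215872, 0, 0, 0⟩
  s00 := ⟨9010072911872, 0, 0, 0⟩
  s01 := ⟨0, 11091290423296, 0, 0⟩
  s02 := ⟨0, 19026676744192, 0, 0⟩
  s03 := ⟨78627095511040, 0, 0, 0⟩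
  s10 := ⟨0, 1567667454773248, 0, 0⟩
  s11 := ⟨3253936377970688, 0, 0, 0⟩
  g00 := ⟨42346092416, 0, 0, 0⟩
  g01 := ⟨0, 45356611456, 0, 0⟩
  g10 := ⟨9319047959552, 0, 0, 0⟩
  g11 := ⟨0, 0, 0, 0⟩
  f00 := ⟨330953731904, 0, 0, 0⟩
  f01 := ⟨143008424768, 0, 0, 0⟩
  f10 := ⟨94769588392320, 0, 0, 0⟩
  f11 := ⟨0, 0, 0, 0⟩
  l000 := ⟨0, 0, 0, 0⟩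
  l001 := ⟨0, 0, 0, 0⟩
  l002 := ⟨0, 0, 0, 0⟩
  l010 := ⟨0, 0, 0, 0⟩
  l011 := ⟨0, 0, 0, 0⟩
  l020 := ⟨0, 0, 0, 0⟩
  l100 := ⟨0, 0, 0, 0⟩
  l101 := ⟨0, 0, 0, 0⟩
  l102 := ⟨0, 0, 0, 0⟩
  l110 := ⟨0, 0, 0, 0⟩
  l111 := ⟨0, 0, 0, 0⟩
  l120 := ⟨0, 0, 0, 0⟩
  l200 := ⟨0, 0, 0, 0⟩
  l201 := ⟨0, 0, 0, 0⟩
  l210 := ⟨0, 0, 0, 0⟩
  l300 := ⟨0, 0, 0, 0⟩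
  l301 := ⟨0, 0, 0, 0⟩
  l310 := ⟨0, 0, 0, 0⟩
  l400 := ⟨0, 0, 0, 0⟩
  l401 := ⟨0, 0, 0, 0⟩
  l410 := ⟨0, 0, 0, 0⟩
  l500 := ⟨0, 0, 0, 0⟩
  l501 := ⟨0, 0, 0, 0⟩
  l510 := ⟨0, 0, 0, 0⟩
  l600 := ⟨0, 0, 0, 0⟩
  l700 := ⟨0, 0, 0, 0⟩
  l800 := ⟨0, 0, 0, 0⟩
  l900 := ⟨0, 0, 0, 0⟩
  l1000 := ⟨0, 0, 0, 0⟩
  l1100 := ⟨0, 0, 0, 0⟩
  q00 := ⟨0, 0, 0, 0⟩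
  q01 := ⟨0, 0, 0, 0⟩
  q02 := ⟨0, 0, 0, 0⟩
  q03 := ⟨0, 0, 0, 0⟩
  q10 := ⟨0, 0, 0, 0⟩
  q11 := ⟨0, 0, 0, 0⟩
  q12 := ⟨0, 0, 0, 0⟩
  q20 := ⟨0, 0, 0, 0⟩
  q21 := ⟨0, 0, 0, 0⟩
  q30 := ⟨0, 0, 0, 0⟩
  n000 := ⟨0, 0, 0, 0⟩
  n001 := ⟨0, 0, 0, 0⟩
  n002 := ⟨0, 0, 0, 0⟩
  n010 := ⟨0, 0, 0, 0⟩
  n011 := ⟨0, 0, 0, 0⟩
  n020 := ⟨0, 0, 0, 0⟩
  n100 := ⟨0, 0, 0, 0⟩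
  n101 := ⟨0, 0, 0, 0⟩
  n110 := ⟨0, 0, 0, 0⟩
  n200 := ⟨0, 0, 0, 0⟩
  n201 := ⟨0, 0, 0, 0⟩
  n210 := ⟨0, 0, 0, 0⟩
  n300 := ⟨0, 0, 0, 0⟩
  n400 := ⟨0, 0, 0, 0⟩
  n500 := ⟨0, 0, 0, 0⟩
  e00 := ⟨0, 0, 0, 0⟩
  e01 := ⟨0, 0, 0, 0⟩
  e02 := ⟨0, 0, 0, 0⟩
  e03 := ⟨0, 0, 0, 0⟩
  e10 := ⟨0, 0, 0, 0⟩
  e11 := ⟨0, 0, 0, 0⟩
  B1 := 0

def p10 : Pm where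
  ec := ⟨5251268608, 0, 0, 0⟩
  bc := ⟨0, 0, 0, 0⟩
  nn := ⟨12094627905536, 0, 0, 0⟩
  tj := ⟨26388279066624, 0, 0, 0⟩
  ca := ⟨405605974016, 0, 0, 0⟩
  cb := ⟨347355480064, 0, 0, 0⟩
  cc := ⟨0, 0, 0, 0⟩
  ax := ⟨0, 0, 0, 0⟩
  ay := ⟨0, 0, 0, 0⟩
  xa := ⟨0, 0, 0, 0⟩
  C2 := ⟨0, 0, 0, 0⟩
  wr := ⟨0, 877783941120, 0, 0⟩
  wi := ⟨6562978463744, 0, 0, 0⟩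
  w1 := ⟨0, 91895120265216, 0, 0⟩
  h000 := ⟨0, 8936704960, 0, 0⟩
  h001 := ⟨0, 2618666560, 0, 0⟩
  h002 := ⟨5081778752, 0, 0, 0⟩
  h003 := ⟨0, 11999633664, 0, 0⟩
  h010 := ⟨0, 3052875267648, 0, 0⟩
  h011 := ⟨0, 1301615060096, 0, 0⟩
  h012 := ⟨0, 0, 0, 0⟩
  h020 := ⟨105109046697088, 0, 0, 0⟩
  h021 := ⟨0, 0, 0, 0⟩
  h030 := ⟨0, 0, 0, 0⟩
  h100 := ⟨0, 963700160, 0, 0⟩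
  h101 := ⟨1786633536, 0, 0, 0⟩
  h102 := ⟨0, 244094656, 0, 0⟩
  h110 := ⟨213244426880, 0, 0, 0⟩
  h111 := ⟨0, 474966930880, 0, 0⟩
  h120 := ⟨0, 0, 0, 0⟩
  h200 := ⟨523342592, 0, 0, 0⟩
  h201 := ⟨0, 317149824, 0, 0⟩
  h202 := ⟨194517440, 0, 0, 0⟩
  h210 := ⟨19468412736, 0, 0, 0⟩
  h211 := ⟨0, 0, 0, 0⟩
  h300 := ⟨0, 90202496, 0, 0⟩
  h301 := ⟨20961984, 0, 0, 0⟩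
  h310 := ⟨0, 8108527296, 0, 0⟩
  h400 := ⟨9194176, 0, 0, 0⟩
  h401 := ⟨0, 607552, 0, 0⟩
  h410 := ⟨0, 0, 0, 0⟩
  h500 := ⟨0, 580288, 0, 0⟩
  h501 := ⟨0, 0, 0, 0⟩
  h600 := ⟨16704, 0, 0, 0⟩
  h700 := ⟨0, 0, 0, 0⟩
  h800 := ⟨0, 0, 0, 0⟩
  m000 := ⟨1099610980352, 0, 0, 0⟩
  m001 := ⟨270860288, 0, 0, 0⟩
  m002 := ⟨0, 1415184384, 0, 0⟩
  m010 := ⟨190286462976, 0, 0, 0⟩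
  m100 := ⟨2689204224, 0, 0, 0⟩
  m101 := ⟨6750208, 0, 0, 0⟩
  m110 := ⟨523389698048, 0, 0, 0⟩
  m200 := ⟨0, 23527424, 0, 0⟩
  m300 := ⟨6291456, 0, 0, 0⟩
  a00 := ⟨49071587328, 0, 0, 0⟩
  a01 := ⟨0, 22453288960, 0, 0⟩
  a02 := ⟨0, 226772254720, 0, 0⟩
  a03 := ⟨563455000576, 0, 0, 0⟩
  a10 := ⟨0, 13425221828608, 0, 0⟩
  a11 := ⟨15310035877888, 0, 0, 0⟩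
  b00 := ⟨45060653056, 0, 0, 0⟩
  b01 := ⟨0, 23262265344, 0, 0⟩
  b02 := ⟨0, 196433477632, 0, 0⟩
  b03 := ⟨495191392256, 0, 0, 0⟩
  b10 := ⟨0, 12729218891776, 0, 0⟩
  b11 := ⟨15494666256384, 0, 0, 0⟩
  t00 := ⟨477775462400, 0, 0, 0⟩
  t01 := ⟨0, 667457224704, 0, 0⟩
  t02 := ⟨0, 1586235244544, 0, 0⟩
  t03 := ⟨5382744965120, 0, 0, 0⟩
  t10 := ⟨0, 116292413704192, 0, 0⟩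
  t11 := ⟨170274097414144, 0, 0, 0⟩
  s00 := ⟨9528922603520, 0, 0, 0⟩
  s01 := ⟨0, 11835522613248, 0, 0⟩
  s02 := ⟨0, 20580781457408, 0, 0⟩
  s03 := ⟨84040317796352, 0, 0, 0⟩
  s10 := ⟨0, 1689821096431616, 0, 0⟩
  s11 := ⟨3431385589186560, 0, 0, 0⟩
  g00 := ⟨42346092416, 0, 0, 0⟩
  g01 := ⟨0, 45356611456, 0, 0⟩
  g10 := ⟨9319047959552, 0, 0, 0⟩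
  g11 := ⟨0, 0, 0, 0⟩
  f00 := ⟨330953731904, 0, 0, 0⟩
  f01 := ⟨143008424768, 0, 0, 0⟩
  f10 := ⟨94769588392320, 0, 0, 0⟩
  f11 := ⟨0, 0, 0, 0⟩
  l000 := ⟨0, 0, 0, 0⟩
  l001 := ⟨0, 0, 0, 0⟩
  l002 := ⟨0, 0, 0, 0⟩
  l010 := ⟨0, 0, 0, 0⟩
  l011 := ⟨0, 0, 0, 0⟩
  l020 := ⟨0, 0, 0, 0⟩
  l100 := ⟨0, 0, 0, 0⟩
  l101 := ⟨0, 0, 0, 0⟩
  l102 := ⟨0, 0, 0, 0⟩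
  l110 := ⟨0, 0, 0, 0⟩
  l111 := ⟨0, 0, 0, 0⟩
  l120 := ⟨0, 0, 0, 0⟩
  l200 := ⟨0, 0, 0, 0⟩
  l201 := ⟨0, 0, 0, 0⟩
  l210 := ⟨0, 0, 0, 0⟩
  l300 := ⟨0, 0, 0, 0⟩
  l301 := ⟨0, 0, 0, 0⟩
  l310 := ⟨0, 0, 0, 0⟩
  l400 := ⟨0, 0, 0, 0⟩
  l401 := ⟨0, 0, 0, 0⟩
  l410 := ⟨0, 0, 0, 0⟩
  l500 := ⟨0, 0, 0, 0⟩
  l501 := ⟨0, 0, 0, 0⟩
  l510 := ⟨0, 0, 0, 0⟩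
  l600 := ⟨0, 0, 0, 0⟩
  l700 := ⟨0, 0, 0, 0⟩
  l800 := ⟨0, 0, 0, 0⟩
  l900 := ⟨0, 0, 0, 0⟩
  l1000 := ⟨0, 0, 0, 0⟩
  l1100 := ⟨0, 0, 0, 0⟩
  q00 := ⟨0, 0, 0, 0⟩
  q01 := ⟨0, 0, 0, 0⟩
  q02 := ⟨0, 0, 0, 0⟩
  q03 := ⟨0, 0, 0, 0⟩
  q10 := ⟨0, 0, 0, 0⟩
  q11 := ⟨0, 0, 0, 0⟩
  q12 := ⟨0, 0, 0, 0⟩
  q20 := ⟨0, 0, 0, 0⟩
  q21 := ⟨0, 0, 0, 0⟩
  q30 := ⟨0, 0, 0, 0⟩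
  n000 := ⟨0, 0, 0, 0⟩
  n001 := ⟨0, 0, 0, 0⟩
  n002 := ⟨0, 0, 0, 0⟩
  n010 := ⟨0, 0, 0, 0⟩
  n011 := ⟨0, 0, 0, 0⟩
  n020 := ⟨0, 0, 0, 0⟩
  n100 := ⟨0, 0, 0, 0⟩
  n101 := ⟨0, 0, 0, 0⟩
  n110 := ⟨0, 0, 0, 0⟩
  n200 := ⟨0, 0, 0, 0⟩
  n201 := ⟨0, 0, 0, 0⟩
  n210 := ⟨0, 0, 0, 0⟩
  n300 := ⟨0, 0, 0, 0⟩
  n400 := ⟨0, 0, 0, 0⟩
  n500 := ⟨0, 0, 0, 0⟩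
  e00 := ⟨0, 0, 0, 0⟩
  e01 := ⟨0, 0, 0, 0⟩
  e02 := ⟨0, 0, 0, 0⟩
  e03 := ⟨0, 0, 0, 0⟩
  e10 := ⟨0, 0, 0, 0⟩
  e11 := ⟨0, 0, 0, 0⟩
  B1 := 0

def p11 : Pm where
  ec := ⟨5251268608, 0, 0, 0⟩
  bc := ⟨0, 0, 0, 0⟩
  nn := ⟨13194139533312, 0, 0, 0⟩
  tj := ⟨28587302322176, 0, 0, 0⟩
  ca := ⟨347355480064, 0, 0, 0⟩
  cb := ⟨289104986112, 0, 0, 0⟩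
  cc := ⟨0, 0, 0, 0⟩
  ax := ⟨0, 0, 0, 0⟩
  ay := ⟨0, 0, 0, 0⟩
  xa := ⟨0, 0, 0, 0⟩
  C2 := ⟨0, 0, 0, 0⟩
  wr := ⟨0, 877783941120, 0, 0⟩
  wi := ⟨6562978463744, 0, 0, 0⟩
  w1 := ⟨0, 91895120265216, 0, 0⟩
  h000 := ⟨0, 8936704960, 0, 0⟩
  h001 := ⟨0, 2618666560, 0, 0⟩
  h002 := ⟨5081778752, 0, 0, 0⟩
  h003 := ⟨0, 11999633664, 0, 0⟩
  h010 := ⟨0, 3052875267648, 0, 0⟩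
  h011 := ⟨0, 1301615060096, 0, 0⟩
  h012 := ⟨0, 0, 0, 0⟩
  h020 := ⟨105109046697088, 0, 0, 0⟩
  h021 := ⟨0, 0, 0, 0⟩
  h030 := ⟨0, 0, 0, 0⟩
  h100 := ⟨0, 963700160, 0, 0⟩
  h101 := ⟨1786633536, 0, 0, 0⟩
  h102 := ⟨0, 244094656, 0, 0⟩
  h110 := ⟨213244426880, 0, 0, 0⟩
  h111 := ⟨0, 474966930880, 0, 0⟩
  h120 := ⟨0, 0, 0, 0⟩
  h200 := ⟨523342592, 0, 0, 0⟩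
  h201 := ⟨0, 317149824, 0, 0⟩
  h202 := ⟨194517440, 0, 0, 0⟩
  h210 := ⟨19468412736, 0, 0, 0⟩
  h211 := ⟨0, 0, 0, 0⟩
  h300 := ⟨0, 90202496, 0, 0⟩
  h301 := ⟨20961984, 0, 0, 0⟩
  h310 := ⟨0, 8108527296, 0, 0⟩
  h400 := ⟨9194176, 0, 0, 0⟩
  h401 := ⟨0, 607552, 0, 0⟩
  h410 := ⟨0, 0, 0, 0⟩
  h500 := ⟨0, 580288, 0, 0⟩
  h501 := ⟨0, 0, 0, 0⟩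
  h600 := ⟨16704, 0, 0, 0⟩
  h700 := ⟨0, 0, 0, 0⟩
  h800 := ⟨0, 0, 0, 0⟩
  m000 := ⟨1099747033088, 0, 0, 0⟩
  m001 := ⟨305201152, 0, 0, 0⟩
  m002 := ⟨0, 1546780672, 0, 0⟩
  m010 := ⟨145360027648, 0, 0, 0⟩
  m100 := ⟨2656567296, 0, 0, 0⟩
  m101 := ⟨0, 22478848, 0, 0⟩
  m110 := ⟨518113001472, 0, 0, 0⟩
  m200 := ⟨0, 15335424, 0, 0⟩
  m300 := ⟨4980736, 0, 0, 0⟩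
  a00 := ⟨45060653056, 0, 0, 0⟩
  a01 := ⟨0, 23262265344, 0, 0⟩
  a02 := ⟨0, 196433477632, 0, 0⟩
  a03 := ⟨495191392256, 0, 0, 0⟩
  a10 := ⟨0, 12729218891776, 0, 0⟩
  a11 := ⟨15494666256384, 0, 0, 0⟩
  b00 := ⟨41283551232, 0, 0, 0⟩
  b01 := ⟨0, 23800774656, 0, 0⟩
  b02 := ⟨0, 166650183680, 0, 0⟩
  b03 := ⟨427319689216, 0, 0, 0⟩
  b10 := ⟨0, 12066087960576, 0, 0⟩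
  b11 := ⟨15796005306368, 0, 0, 0⟩
  t00 := ⟨439045783552, 0, 0, 0⟩
  t01 := ⟨0, 605343842304, 0, 0⟩
  t02 := ⟨0, 1510907707392, 0, 0⟩
  t03 := ⟨5107371606016, 0, 0, 0⟩
  t10 := ⟨0, 110181833984000, 0, 0⟩
  t11 := ⟨165065376940032, 0, 0, 0⟩
  s00 := ⟨10006698065920, 0, 0, 0⟩
  s01 := ⟨0, 12502979837952, 0, 0⟩
  s02 := ⟨0, 22167016701952, 0, 0⟩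
  s03 := ⟨89423062761472, 0, 0, 0⟩
  s10 := ⟨0, 1806113510135808, 0, 0⟩
  s11 := ⟨3601659686600704, 0, 0, 0⟩
  g00 := ⟨42346092416, 0, 0, 0⟩
  g01 := ⟨0, 45356611456, 0, 0⟩
  g10 := ⟨9319047959552, 0, 0, 0⟩
  g11 := ⟨0, 0, 0, 0⟩
  f00 := ⟨330953731904, 0, 0, 0⟩
  f01 := ⟨143008424768, 0, 0, 0⟩
  f10 := ⟨94769588392320, 0, 0, 0⟩
  f11 := ⟨0, 0, 0, 0⟩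
  l000 := ⟨0, 0, 0, 0⟩
  l001 := ⟨0, 0, 0, 0⟩
  l002 := ⟨0, 0, 0, 0⟩
  l010 := ⟨0, 0, 0, 0⟩
  l011 := ⟨0, 0, 0, 0⟩
  l020 := ⟨0, 0, 0, 0⟩
  l100 := ⟨0, 0, 0, 0⟩
  l101 := ⟨0, 0, 0, 0⟩
  l102 := ⟨0, 0, 0, 0⟩
  l110 := ⟨0, 0, 0, 0⟩
  l111 := ⟨0, 0, 0, 0⟩
  l120 := ⟨0, 0, 0, 0⟩
  l200 := ⟨0, 0, 0, 0⟩
  l201 := ⟨0, 0, 0, 0⟩
  l210 := ⟨0, 0, 0, 0⟩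
  l300 := ⟨0, 0, 0, 0⟩
  l301 := ⟨0, 0, 0, 0⟩
  l310 := ⟨0, 0, 0, 0⟩
  l400 := ⟨0, 0, 0, 0⟩
  l401 := ⟨0, 0, 0, 0⟩
  l410 := ⟨0, 0, 0, 0⟩
  l500 := ⟨0, 0, 0, 0⟩
  l501 := ⟨0, 0, 0, 0⟩
  l510 := ⟨0, 0, 0, 0⟩
  l600 := ⟨0, 0, 0, 0⟩
  l700 := ⟨0, 0, 0, 0⟩
  l800 := ⟨0, 0, 0, 0⟩
  l900 := ⟨0, 0, 0, 0⟩
  l1000 := ⟨0, 0, 0, 0⟩
  l1100 := ⟨0, 0, 0, 0⟩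
  q00 := ⟨0, 0, 0, 0⟩
  q01 := ⟨0, 0, 0, 0⟩
  q02 := ⟨0, 0, 0, 0⟩
  q03 := ⟨0, 0, 0, 0⟩
  q10 := ⟨0, 0, 0, 0⟩
  q11 := ⟨0, 0, 0, 0⟩
  q12 := ⟨0, 0, 0, 0⟩
  q20 := ⟨0, 0, 0, 0⟩
  q21 := ⟨0, 0, 0, 0⟩
  q30 := ⟨0, 0, 0, 0⟩
  n000 := ⟨0, 0, 0, 0⟩
  n001 := ⟨0, 0, 0, 0⟩
  n002 := ⟨0, 0, 0, 0⟩
  n010 := ⟨0, 0, 0, 0⟩
  n011 := ⟨0, 0, 0, 0⟩
  n020 := ⟨0, 0, 0, 0⟩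
  n100 := ⟨0, 0, 0, 0⟩
  n101 := ⟨0, 0, 0, 0⟩
  n110 := ⟨0, 0, 0, 0⟩
  n200 := ⟨0, 0, 0, 0⟩
  n201 := ⟨0, 0, 0, 0⟩
  n210 := ⟨0, 0, 0, 0⟩
  n300 := ⟨0, 0, 0, 0⟩
  n400 := ⟨0, 0, 0, 0⟩
  n500 := ⟨0, 0, 0, 0⟩
  e00 := ⟨0, 0, 0, 0⟩
  e01 := ⟨0, 0, 0, 0⟩
  e02 := ⟨0, 0, 0, 0⟩
  e03 := ⟨0, 0, 0, 0⟩
  e10 := ⟨0, 0, 0, 0⟩
  e11 := ⟨0, 0, 0, 0⟩
  B1 := 0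

def p12 : Pm where
  ec := ⟨5251268608, 0, 0, 0⟩
  bc := ⟨0, 0, 0, 0⟩
  nn := ⟨14293651161088, 0, 0, 0⟩
  tj := ⟨30786325577728, 0, 0, 0⟩
  ca := ⟨289104986112, 0, 0, 0⟩
  cb := ⟨229780750336, 0, 0, 0⟩
  cc := ⟨0, 0, 0, 0⟩
  ax := ⟨0, 0, 0, 0⟩
  ay := ⟨0, 0, 0, 0⟩
  xa := ⟨0, 0, 0, 0⟩
  C2 := ⟨0, 0, 0, 0⟩
  wr := ⟨0, 877783941120, 0, 0⟩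
  wi := ⟨6562978463744, 0, 0, 0⟩
  w1 := ⟨0, 91895120265216, 0, 0⟩
  h000 := ⟨0, 8936704960, 0, 0⟩
  h001 := ⟨0, 2618666560, 0, 0⟩
  h002 := ⟨5081778752, 0, 0, 0⟩
  h003 := ⟨0, 11999633664, 0, 0⟩
  h010 := ⟨0, 3052875267648, 0, 0⟩
  h011 := ⟨0, 1301615060096, 0, 0⟩
  h012 := ⟨0, 0, 0, 0⟩
  h020 := ⟨105109046697088, 0, 0, 0⟩
  h021 := ⟨0, 0, 0, 0⟩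
  h030 := ⟨0, 0, 0, 0⟩
  h100 := ⟨0, 963700160, 0, 0⟩
  h101 := ⟨1786633536, 0, 0, 0⟩
  h102 := ⟨0, 244094656, 0, 0⟩
  h110 := ⟨213244426880, 0, 0, 0⟩
  h111 := ⟨0, 474966930880, 0, 0⟩
  h120 := ⟨0, 0, 0, 0⟩
  h200 := ⟨523342592, 0, 0, 0⟩
  h201 := ⟨0, 317149824, 0, 0⟩
  h202 := ⟨194517440, 0, 0, 0⟩
  h210 := ⟨19468412736, 0, 0, 0⟩
  h211 := ⟨0, 0, 0, 0⟩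
  h300 := ⟨0, 90202496, 0, 0⟩
  h301 := ⟨20961984, 0, 0, 0⟩
  h310 := ⟨0, 8108527296, 0, 0⟩
  h400 := ⟨9194176, 0, 0, 0⟩
  h401 := ⟨0, 607552, 0, 0⟩
  h410 := ⟨0, 0, 0, 0⟩
  h500 := ⟨0, 580288, 0, 0⟩
  h501 := ⟨0, 0, 0, 0⟩
  h600 := ⟨16704, 0, 0, 0⟩
  h700 := ⟨0, 0, 0, 0⟩
  h800 := ⟨0, 0, 0, 0⟩
  m000 := ⟨1099872010240, 0, 0, 0⟩
  m001 := ⟨253952000, 0, 0, 0⟩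
  m002 := ⟨0, 1326383104, 0, 0⟩
  m010 := ⟨189373874176, 0, 0, 0⟩
  m100 := ⟨2625175552, 0, 0, 0⟩
  m101 := ⟨0, 35061760, 0, 0⟩
  m110 := ⟨514910257152, 0, 0, 0⟩
  m200 := ⟨0, 8126464, 0, 0⟩
  m300 := ⟨3866624, 0, 0, 0⟩
  a00 := ⟨41283551232, 0, 0, 0⟩
  a01 := ⟨0, 23800774656, 0, 0⟩
  a02 := ⟨0, 166650183680, 0, 0⟩
  a03 := ⟨427319689216, 0, 0, 0⟩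
  a10 := ⟨0, 12066087960576, 0, 0⟩
  a11 := ⟨15796005306368, 0, 0, 0⟩
  b00 := ⟨37727502336, 0, 0, 0⟩
  b01 := ⟨0, 24389025792, 0, 0⟩
  b02 := ⟨0, 134657736704, 0, 0⟩
  b03 := ⟨353226063872, 0, 0, 0⟩
  b10 := ⟨0, 11431340081152, 0, 0⟩
  b11 := ⟨16212634632192, 0, 0, 0⟩
  t00 := ⟨402628804608, 0, 0, 0⟩
  t01 := ⟨0, 553549430784, 0, 0⟩
  t02 := ⟨0, 1379363782656, 0, 0⟩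
  t03 := ⟨4709323505664, 0, 0, 0⟩
  t10 := ⟨0, 104472992303104, 0, 0⟩
  t11 := ⟨161713714380800, 0, 0, 0⟩
  s00 := ⟨10445743849472, 0, 0, 0⟩
  s01 := ⟨0, 13108323680256, 0, 0⟩
  s02 := ⟨0, 23677924409344, 0, 0⟩
  s03 := ⟨94530434367488, 0, 0, 0⟩
  s10 := ⟨0, 1916295344119808, 0, 0⟩
  s11 := ⟨3766725063540736, 0, 0, 0⟩
  g00 := ⟨42346092416, 0, 0, 0⟩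
  g01 := ⟨0, 45356611456, 0, 0⟩
  g10 := ⟨9319047959552, 0, 0, 0⟩
  g11 := ⟨0, 0, 0, 0⟩
  f00 := ⟨330953731904, 0, 0, 0⟩
  f01 := ⟨143008424768, 0, 0, 0⟩
  f10 := ⟨94769588392320, 0, 0, 0⟩
  f11 := ⟨0, 0, 0, 0⟩
  l000 := ⟨0, 0, 0, 0⟩
  l001 := ⟨0, 0, 0, 0⟩
  l002 := ⟨0, 0, 0, 0⟩
  l010 := ⟨0, 0, 0, 0⟩
  l011 := ⟨0, 0, 0, 0⟩
  l020 := ⟨0, 0, 0, 0⟩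
  l100 := ⟨0, 0, 0, 0⟩
  l101 := ⟨0, 0, 0, 0⟩
  l102 := ⟨0, 0, 0, 0⟩
  l110 := ⟨0, 0, 0, 0⟩
  l111 := ⟨0, 0, 0, 0⟩
  l120 := ⟨0, 0, 0, 0⟩
  l200 := ⟨0, 0, 0, 0⟩
  l201 := ⟨0, 0, 0, 0⟩
  l210 := ⟨0, 0, 0, 0⟩
  l300 := ⟨0, 0, 0, 0⟩
  l301 := ⟨0, 0, 0, 0⟩
  l310 := ⟨0, 0, 0, 0⟩
  l400 := ⟨0, 0, 0, 0⟩
  l401 := ⟨0, 0, 0, 0⟩
  l410 := ⟨0, 0, 0, 0⟩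
  l500 := ⟨0, 0, 0, 0⟩
  l501 := ⟨0, 0, 0, 0⟩
  l510 := ⟨0, 0, 0, 0⟩
  l600 := ⟨0, 0, 0, 0⟩
  l700 := ⟨0, 0, 0, 0⟩
  l800 := ⟨0, 0, 0, 0⟩
  l900 := ⟨0, 0, 0, 0⟩
  l1000 := ⟨0, 0, 0, 0⟩
  l1100 := ⟨0, 0, 0, 0⟩
  q00 := ⟨0, 0, 0, 0⟩
  q01 := ⟨0, 0, 0, 0⟩
  q02 := ⟨0, 0, 0, 0⟩
  q03 := ⟨0, 0, 0, 0⟩
  q10 := ⟨0, 0, 0, 0⟩
  q11 := ⟨0, 0, 0, 0⟩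
  q12 := ⟨0, 0, 0, 0⟩
  q20 := ⟨0, 0, 0, 0⟩
  q21 := ⟨0, 0, 0, 0⟩
  q30 := ⟨0, 0, 0, 0⟩
  n000 := ⟨0, 0, 0, 0⟩
  n001 := ⟨0, 0, 0, 0⟩
  n002 := ⟨0, 0, 0, 0⟩
  n010 := ⟨0, 0, 0, 0⟩
  n011 := ⟨0, 0, 0, 0⟩
  n020 := ⟨0, 0, 0, 0⟩
  n100 := ⟨0, 0, 0, 0⟩
  n101 := ⟨0, 0, 0, 0⟩
  n110 := ⟨0, 0, 0, 0⟩
  n200 := ⟨0, 0, 0, 0⟩
  n201 := ⟨0, 0, 0, 0⟩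
  n210 := ⟨0, 0, 0, 0⟩
  n300 := ⟨0, 0, 0, 0⟩
  n400 := ⟨0, 0, 0, 0⟩
  n500 := ⟨0, 0, 0, 0⟩
  e00 := ⟨0, 0, 0, 0⟩
  e01 := ⟨0, 0, 0, 0⟩
  e02 := ⟨0, 0, 0, 0⟩
  e03 := ⟨0, 0, 0, 0⟩
  e10 := ⟨0, 0, 0, 0⟩
  e11 := ⟨0, 0, 0, 0⟩
  B1 := 0

def p13 : Pm where
  ec := ⟨5251268608, 0, 0, 0⟩
  bc := ⟨0, 0, 0, 0⟩
  nn := ⟨15393162788864, 0, 0, 0⟩
  tj := ⟨32985348833280, 0, 0, 0⟩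
  ca := ⟨229780750336, 0, 0, 0⟩
  cb := ⟨171530256384, 0, 0, 0⟩
  cc := ⟨0, 0, 0, 0⟩
  ax := ⟨0, 0, 0, 0⟩
  ay := ⟨0, 0, 0, 0⟩
  xa := ⟨0, 0, 0, 0⟩
  C2 := ⟨0, 0, 0, 0⟩
  wr := ⟨0, 877783941120, 0, 0⟩
  wi := ⟨6562978463744, 0, 0, 0⟩
  w1 := ⟨0, 91895120265216, 0, 0⟩
  h000 := ⟨0, 8936704960, 0, 0⟩
  h001 := ⟨0, 2618666560, 0, 0⟩
  h002 := ⟨5081778752, 0, 0, 0⟩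
  h003 := ⟨0, 11999633664, 0, 0⟩
  h010 := ⟨0, 3052875267648, 0, 0⟩
  h011 := ⟨0, 1301615060096, 0, 0⟩
  h012 := ⟨0, 0, 0, 0⟩
  h020 := ⟨105109046697088, 0, 0, 0⟩
  h021 := ⟨0, 0, 0, 0⟩
  h030 := ⟨0, 0, 0, 0⟩
  h100 := ⟨0, 963700160, 0, 0⟩
  h101 := ⟨1786633536, 0, 0, 0⟩
  h102 := ⟨0, 244094656, 0, 0⟩
  h110 := ⟨213244426880, 0, 0, 0⟩
  h111 := ⟨0, 474966930880, 0, 0⟩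
  h120 := ⟨0, 0, 0, 0⟩
  h200 := ⟨523342592, 0, 0, 0⟩
  h201 := ⟨0, 317149824, 0, 0⟩
  h202 := ⟨194517440, 0, 0, 0⟩
  h210 := ⟨19468412736, 0, 0, 0⟩
  h211 := ⟨0, 0, 0, 0⟩
  h300 := ⟨0, 90202496, 0, 0⟩
  h301 := ⟨20961984, 0, 0, 0⟩
  h310 := ⟨0, 8108527296, 0, 0⟩
  h400 := ⟨9194176, 0, 0, 0⟩
  h401 := ⟨0, 607552, 0, 0⟩
  h410 := ⟨0, 0, 0, 0⟩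
  h500 := ⟨0, 580288, 0, 0⟩
  h501 := ⟨0, 0, 0, 0⟩
  h600 := ⟨16704, 0, 0, 0⟩
  h700 := ⟨0, 0, 0, 0⟩
  h800 := ⟨0, 0, 0, 0⟩
  m000 := ⟨1099944427520, 0, 0, 0⟩
  m001 := ⟨188547072, 0, 0, 0⟩
  m002 := ⟨0, 1187708928, 0, 0⟩
  m010 := ⟨118899802112, 0, 0, 0⟩
  m100 := ⟨2603417600, 0, 0, 0⟩
  m101 := ⟨0, 23134208, 0, 0⟩
  m110 := ⟨516717543424, 0, 0, 0⟩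
  m200 := ⟨0, 3407872, 0, 0⟩
  m300 := ⟨3014656, 0, 0, 0⟩
  a00 := ⟨37727502336, 0, 0, 0⟩
  a01 := ⟨0, 24389025792, 0, 0⟩
  a02 := ⟨0, 134657736704, 0, 0⟩
  a03 := ⟨353226063872, 0, 0, 0⟩
  a10 := ⟨0, 11431340081152, 0, 0⟩
  a11 := ⟨16212634632192, 0, 0, 0⟩
  b00 := ⟨34379137024, 0, 0, 0⟩
  b01 := ⟨0, 25507266560, 0, 0⟩
  b02 := ⟨0, 92805595136, 0, 0⟩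
  b03 := ⟨247993073664, 0, 0, 0⟩
  b10 := ⟨0, 10849400455168, 0, 0⟩
  b11 := ⟨16132180279296, 0, 0, 0⟩
  t00 := ⟨368558866432, 0, 0, 0⟩
  t01 := ⟨0, 520212578304, 0, 0⟩
  t02 := ⟨0, 1095009042432, 0, 0⟩
  t03 := ⟨3937302085632, 0, 0, 0⟩
  t10 := ⟨0, 99111898073088, 0, 0⟩
  t11 := ⟨159274421600256, 0, 0, 0⟩
  s00 := ⟨10848372654080, 0, 0, 0⟩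
  s01 := ⟨0, 13661873111040, 0, 0⟩
  s02 := ⟨0, 25057288192000, 0, 0⟩
  s03 := ⟨99239757873152, 0, 0, 0⟩
  s10 := ⟨0, 2020768336422912, 0, 0⟩
  s11 := ⟨3928438777921536, 0, 0, 0⟩
  g00 := ⟨42346092416, 0, 0, 0⟩
  g01 := ⟨0, 45356611456, 0, 0⟩
  g10 := ⟨9319047959552, 0, 0, 0⟩
  g11 := ⟨0, 0, 0, 0⟩
  f00 := ⟨330953731904, 0, 0, 0⟩
  f01 := ⟨143008424768, 0, 0, 0⟩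
  f10 := ⟨94769588392320, 0, 0, 0⟩
  f11 := ⟨0, 0, 0, 0⟩
  l000 := ⟨0, 0, 0, 0⟩
  l001 := ⟨0, 0, 0, 0⟩
  l002 := ⟨0, 0, 0, 0⟩
  l010 := ⟨0, 0, 0, 0⟩
  l011 := ⟨0, 0, 0, 0⟩
  l020 := ⟨0, 0, 0, 0⟩
  l100 := ⟨0, 0, 0, 0⟩
  l101 := ⟨0, 0, 0, 0⟩
  l102 := ⟨0, 0, 0, 0⟩
  l110 := ⟨0, 0, 0, 0⟩
  l111 := ⟨0, 0, 0, 0⟩
  l120 := ⟨0, 0, 0, 0⟩
  l200 := ⟨0, 0, 0, 0⟩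
  l201 := ⟨0, 0, 0, 0⟩
  l210 := ⟨0, 0, 0, 0⟩
  l300 := ⟨0, 0, 0, 0⟩
  l301 := ⟨0, 0, 0, 0⟩
  l310 := ⟨0, 0, 0, 0⟩
  l400 := ⟨0, 0, 0, 0⟩
  l401 := ⟨0, 0, 0, 0⟩
  l410 := ⟨0, 0, 0, 0⟩
  l500 := ⟨0, 0, 0, 0⟩
  l501 := ⟨0, 0, 0, 0⟩
  l510 := ⟨0, 0, 0, 0⟩
  l600 := ⟨0, 0, 0, 0⟩
  l700 := ⟨0, 0, 0, 0⟩
  l800 := ⟨0, 0, 0, 0⟩
  l900 := ⟨0, 0, 0, 0⟩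
  l1000 := ⟨0, 0, 0, 0⟩
  l1100 := ⟨0, 0, 0, 0⟩
  q00 := ⟨0, 0, 0, 0⟩
  q01 := ⟨0, 0, 0, 0⟩
  q02 := ⟨0, 0, 0, 0⟩
  q03 := ⟨0, 0, 0, 0⟩
  q10 := ⟨0, 0, 0, 0⟩
  q11 := ⟨0, 0, 0, 0⟩
  q12 := ⟨0, 0, 0, 0⟩
  q20 := ⟨0, 0, 0, 0⟩
  q21 := ⟨0, 0, 0, 0⟩
  q30 := ⟨0, 0, 0, 0⟩
  n000 := ⟨0, 0, 0, 0⟩
  n001 := ⟨0, 0, 0, 0⟩
  n002 := ⟨0, 0, 0, 0⟩
  n010 := ⟨0, 0, 0, 0⟩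
  n011 := ⟨0, 0, 0, 0⟩
  n020 := ⟨0, 0, 0, 0⟩
  n100 := ⟨0, 0, 0, 0⟩
  n101 := ⟨0, 0, 0, 0⟩
  n110 := ⟨0, 0, 0, 0⟩
  n200 := ⟨0, 0, 0, 0⟩
  n201 := ⟨0, 0, 0, 0⟩
  n210 := ⟨0, 0, 0, 0⟩
  n300 := ⟨0, 0, 0, 0⟩
  n400 := ⟨0, 0, 0, 0⟩
  n500 := ⟨0, 0, 0, 0⟩
  e00 := ⟨0, 0, 0, 0⟩
  e01 := ⟨0, 0, 0, 0⟩
  e02 := ⟨0, 0, 0, 0⟩
  e03 := ⟨0, 0, 0, 0⟩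
  e10 := ⟨0, 0, 0, 0⟩
  e11 := ⟨0, 0, 0, 0⟩
  B1 := 0

def p14 : Pm where
  ec := ⟨5251268608, 0, 0, 0⟩
  bc := ⟨0, 0, 0, 0⟩
  nn := ⟨16492674416640, 0, 0, 0⟩
  tj := ⟨35184372088832, 0, 0, 0⟩
  ca := ⟨171530256384, 0, 0, 0⟩
  cb := ⟨113279762432, 0, 0, 0⟩
  cc := ⟨0, 0, 0, 0⟩
  ax := ⟨0, 0, 0, 0⟩
  ay := ⟨0, 0, 0, 0⟩
  xa := ⟨0, 0, 0, 0⟩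
  C2 := ⟨0, 0, 0, 0⟩
  wr := ⟨0, 877783941120, 0, 0⟩
  wi := ⟨6562978463744, 0, 0, 0⟩
  w1 := ⟨0, 91895120265216, 0, 0⟩
  h000 := ⟨0, 8936704960, 0, 0⟩
  h001 := ⟨0, 2618666560, 0, 0⟩
  h002 := ⟨5081778752, 0, 0, 0⟩
  h003 := ⟨0, 11999633664, 0, 0⟩
  h010 := ⟨0, 3052875267648, 0, 0⟩
  h011 := ⟨0, 1301615060096, 0, 0⟩
  h012 := ⟨0, 0, 0, 0⟩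
  h020 := ⟨105109046697088, 0, 0, 0⟩
  h021 := ⟨0, 0, 0, 0⟩
  h030 := ⟨0, 0, 0, 0⟩
  h100 := ⟨0, 963700160, 0, 0⟩
  h101 := ⟨1786633536, 0, 0, 0⟩
  h102 := ⟨0, 244094656, 0, 0⟩
  h110 := ⟨213244426880, 0, 0, 0⟩
  h111 := ⟨0, 474966930880, 0, 0⟩
  h120 := ⟨0, 0, 0, 0⟩
  h200 := ⟨523342592, 0, 0, 0⟩
  h201 := ⟨0, 317149824, 0, 0⟩
  h202 := ⟨194517440, 0, 0, 0⟩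
  h210 := ⟨19468412736, 0, 0, 0⟩
  h211 := ⟨0, 0, 0, 0⟩
  h300 := ⟨0, 90202496, 0, 0⟩
  h301 := ⟨20961984, 0, 0, 0⟩
  h310 := ⟨0, 8108527296, 0, 0⟩
  h400 := ⟨9194176, 0, 0, 0⟩
  h401 := ⟨0, 607552, 0, 0⟩
  h410 := ⟨0, 0, 0, 0⟩
  h500 := ⟨0, 580288, 0, 0⟩
  h501 := ⟨0, 0, 0, 0⟩
  h600 := ⟨16704, 0, 0, 0⟩
  h700 := ⟨0, 0, 0, 0⟩
  h800 := ⟨0, 0, 0, 0⟩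
  m000 := ⟨1099984928768, 0, 0, 0⟩
  m001 := ⟨147259392, 0, 0, 0⟩
  m002 := ⟨0, 953942016, 0, 0⟩
  m010 := ⟨89854246912, 0, 0, 0⟩
  m100 := ⟨2589851648, 0, 0, 0⟩
  m101 := ⟨0, 26869760, 0, 0⟩
  m110 := ⟨517958533120, 0, 0, 0⟩
  m200 := ⟨0, 655360, 0, 0⟩
  m300 := ⟨2424832, 0, 0, 0⟩
  a00 := ⟨34379137024, 0, 0, 0⟩
  a01 := ⟨0, 25507266560, 0, 0⟩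
  a02 := ⟨0, 92805595136, 0, 0⟩
  a03 := ⟨247993073664, 0, 0, 0⟩
  a10 := ⟨0, 10849400455168, 0, 0⟩
  a11 := ⟨16132180279296, 0, 0, 0⟩
  b00 := ⟨31232557056, 0, 0, 0⟩
  b01 := ⟨0, 27354398720, 0, 0⟩
  b02 := ⟨0, 39765606400, 0, 0⟩
  b03 := ⟨110000013312, 0, 0, 0⟩
  b10 := ⟨0, 10310343655424, 0, 0⟩
  b11 := ⟨15908132421632, 0, 0, 0⟩
  t00 := ⟨336527228928, 0, 0, 0⟩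
  t01 := ⟨0, 501657501696, 0, 0⟩
  t02 := ⟨0, 671514230784, 0, 0⟩
  t03 := ⟨2764040634368, 0, 0, 0⟩
  t10 := ⟨0, 94542083672064, 0, 0⟩
  t11 := ⟨157132937314304, 0, 0, 0⟩
  s00 := ⟨11216931520512, 0, 0, 0⟩
  s01 := ⟨0, 14182085689344, 0, 0⟩
  s02 := ⟨0, 26152297234432, 0, 0⟩
  s03 := ⟨103177059958784, 0, 0, 0⟩
  s10 := ⟨0, 2119880234496000, 0, 0⟩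
  s11 := ⟨4087713199521792, 0, 0, 0⟩
  g00 := ⟨42346092416, 0, 0, 0⟩
  g01 := ⟨0, 45356611456, 0, 0⟩
  g10 := ⟨9319047959552, 0, 0, 0⟩
  g11 := ⟨0, 0, 0, 0⟩
  f00 := ⟨330953731904, 0, 0, 0⟩
  f01 := ⟨143008424768, 0, 0, 0⟩
  f10 := ⟨94769588392320, 0, 0, 0⟩
  f11 := ⟨0, 0, 0, 0⟩
  l000 := ⟨0, 0, 0, 0⟩
  l001 := ⟨0, 0, 0, 0⟩
  l002 := ⟨0, 0, 0, 0⟩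
  l010 := ⟨0, 0, 0, 0⟩
  l011 := ⟨0, 0, 0, 0⟩
  l020 := ⟨0, 0, 0, 0⟩
  l100 := ⟨0, 0, 0, 0⟩
  l101 := ⟨0, 0, 0, 0⟩
  l102 := ⟨0, 0, 0, 0⟩
  l110 := ⟨0, 0, 0, 0⟩
  l111 := ⟨0, 0, 0, 0⟩
  l120 := ⟨0, 0, 0, 0⟩
  l200 := ⟨0, 0, 0, 0⟩
  l201 := ⟨0, 0, 0, 0⟩
  l210 := ⟨0, 0, 0, 0⟩
  l300 := ⟨0, 0, 0, 0⟩
  l301 := ⟨0, 0, 0, 0⟩
  l310 := ⟨0, 0, 0, 0⟩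
  l400 := ⟨0, 0, 0, 0⟩
  l401 := ⟨0, 0, 0, 0⟩
  l410 := ⟨0, 0, 0, 0⟩
  l500 := ⟨0, 0, 0, 0⟩
  l501 := ⟨0, 0, 0, 0⟩
  l510 := ⟨0, 0, 0, 0⟩
  l600 := ⟨0, 0, 0, 0⟩
  l700 := ⟨0, 0, 0, 0⟩
  l800 := ⟨0, 0, 0, 0⟩
  l900 := ⟨0, 0, 0, 0⟩
  l1000 := ⟨0, 0, 0, 0⟩
  l1100 := ⟨0, 0, 0, 0⟩
  q00 := ⟨0, 0, 0, 0⟩
  q01 := ⟨0, 0, 0, 0⟩
  q02 := ⟨0, 0, 0, 0⟩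
  q03 := ⟨0, 0, 0, 0⟩
  q10 := ⟨0, 0, 0, 0⟩
  q11 := ⟨0, 0, 0, 0⟩
  q12 := ⟨0, 0, 0, 0⟩
  q20 := ⟨0, 0, 0, 0⟩
  q21 := ⟨0, 0, 0, 0⟩
  q30 := ⟨0, 0, 0, 0⟩
  n000 := ⟨0, 0, 0, 0⟩
  n001 := ⟨0, 0, 0, 0⟩
  n002 := ⟨0, 0, 0, 0⟩
  n010 := ⟨0, 0, 0, 0⟩
  n011 := ⟨0, 0, 0, 0⟩
  n020 := ⟨0, 0, 0, 0⟩
  n100 := ⟨0, 0, 0, 0⟩
  n101 := ⟨0, 0, 0, 0⟩
  n110 := ⟨0, 0, 0, 0⟩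
  n200 := ⟨0, 0, 0, 0⟩
  n201 := ⟨0, 0, 0, 0⟩
  n210 := ⟨0, 0, 0, 0⟩
  n300 := ⟨0, 0, 0, 0⟩
  n400 := ⟨0, 0, 0, 0⟩
  n500 := ⟨0, 0, 0, 0⟩
  e00 := ⟨0, 0, 0, 0⟩
  e01 := ⟨0, 0, 0, 0⟩
  e02 := ⟨0, 0, 0, 0⟩
  e03 := ⟨0, 0, 0, 0⟩
  e10 := ⟨0, 0, 0, 0⟩
  e11 := ⟨0, 0, 0, 0⟩
  B1 := 0

def p15 : Pm where
  ec := ⟨5251268608, 0, 0, 0⟩
  bc := ⟨0, 0, 0, 0⟩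
  nn := ⟨17592186044416, 0, 0, 0⟩
  tj := ⟨37383395344384, 0, 0, 0⟩
  ca := ⟨113279762432, 0, 0, 0⟩
  cb := ⟨55029268480, 0, 0, 0⟩
  cc := ⟨0, 0, 0, 0⟩
  ax := ⟨0, 0, 0, 0⟩
  ay := ⟨0, 0, 0, 0⟩
  xa := ⟨0, 0, 0, 0⟩
  C2 := ⟨0, 0, 0, 0⟩
  wr := ⟨0, 877783941120, 0, 0⟩
  wi := ⟨6562978463744, 0, 0, 0⟩
  w1 := ⟨0, 91895120265216, 0, 0⟩
  h000 := ⟨0, 8936704960, 0, 0⟩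
  h001 := ⟨0, 2618666560, 0, 0⟩
  h002 := ⟨5081778752, 0, 0, 0⟩
  h003 := ⟨0, 11999633664, 0, 0⟩
  h010 := ⟨0, 3052875267648, 0, 0⟩
  h011 := ⟨0, 1301615060096, 0, 0⟩
  h012 := ⟨0, 0, 0, 0⟩
  h020 := ⟨105109046697088, 0, 0, 0⟩
  h021 := ⟨0, 0, 0, 0⟩
  h030 := ⟨0, 0, 0, 0⟩
  h100 := ⟨0, 963700160, 0, 0⟩
  h101 := ⟨1786633536, 0, 0, 0⟩
  h102 := ⟨0, 244094656, 0, 0⟩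
  h110 := ⟨213244426880, 0, 0, 0⟩
  h111 := ⟨0, 474966930880, 0, 0⟩
  h120 := ⟨0, 0, 0, 0⟩
  h200 := ⟨523342592, 0, 0, 0⟩
  h201 := ⟨0, 317149824, 0, 0⟩
  h202 := ⟨194517440, 0, 0, 0⟩
  h210 := ⟨19468412736, 0, 0, 0⟩
  h211 := ⟨0, 0, 0, 0⟩
  h300 := ⟨0, 90202496, 0, 0⟩
  h301 := ⟨20961984, 0, 0, 0⟩
  h310 := ⟨0, 8108527296, 0, 0⟩
  h400 := ⟨9194176, 0, 0, 0⟩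
  h401 := ⟨0, 607552, 0, 0⟩
  h410 := ⟨0, 0, 0, 0⟩
  h500 := ⟨0, 580288, 0, 0⟩
  h501 := ⟨0, 0, 0, 0⟩
  h600 := ⟨16704, 0, 0, 0⟩
  h700 := ⟨0, 0, 0, 0⟩
  h800 := ⟨0, 0, 0, 0⟩
  m000 := ⟨1099988926464, 0, 0, 0⟩
  m001 := ⟨92012544, 0, 0, 0⟩
  m002 := ⟨0, 789446656, 0, 0⟩
  m010 := ⟨66043248640, 0, 0, 0⟩
  m100 := ⟨2583756800, 0, 0, 0⟩
  m101 := ⟨0, 25624576, 0, 0⟩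
  m110 := ⟨518390611968, 0, 0, 0⟩
  m200 := ⟨720896, 0, 0, 0⟩
  m300 := ⟨2031616, 0, 0, 0⟩
  a00 := ⟨31232557056, 0, 0, 0⟩
  a01 := ⟨0, 27354398720, 0, 0⟩
  a02 := ⟨0, 39765606400, 0, 0⟩
  a03 := ⟨110000013312, 0, 0, 0⟩
  a10 := ⟨0, 10310343655424, 0, 0⟩
  a11 := ⟨15908132421632, 0, 0, 0⟩
  b00 := ⟨28268036096, 0, 0, 0⟩
  b01 := ⟨0, 27572764672, 0, 0⟩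
  b02 := ⟨0, 13812826112, 0, 0⟩
  b03 := ⟨56188731392, 0, 0, 0⟩
  b10 := ⟨0, 9772603604992, 0, 0⟩
  b11 := ⟨16879604137984, 0, 0, 0⟩
  t00 := ⟨306288590848, 0, 0, 0⟩
  t01 := ⟨0, 490335698944, 0, 0⟩
  t02 := ⟨0, 182508781568, 0, 0⟩
  t03 := ⟨1395986726912, 0, 0, 0⟩
  t10 := ⟨0, 90051054815232, 0, 0⟩
  t11 := ⟨153200374267904, 0, 0, 0⟩
  s00 := ⟨11553458749440, 0, 0, 0⟩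
  s01 := ⟨0, 14683743191040, 0, 0⟩
  s02 := ⟨0, 26823811465216, 0, 0⟩
  s03 := ⟨105941100593152, 0, 0, 0⟩
  s10 := ⟨0, 2214422318168064, 0, 0⟩
  s11 := ⟨4244846136836096, 0, 0, 0⟩
  g00 := ⟨42346092416, 0, 0, 0⟩
  g01 := ⟨0, 45356611456, 0, 0⟩
  g10 := ⟨9319047959552, 0, 0, 0⟩
  g11 := ⟨0, 0, 0, 0⟩
  f00 := ⟨330953731904, 0, 0, 0⟩
  f01 := ⟨143008424768, 0, 0, 0⟩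
  f10 := ⟨94769588392320, 0, 0, 0⟩
  f11 := ⟨0, 0, 0, 0⟩
  l000 := ⟨0, 0, 0, 0⟩
  l001 := ⟨0, 0, 0, 0⟩
  l002 := ⟨0, 0, 0, 0⟩
  l010 := ⟨0, 0, 0, 0⟩
  l011 := ⟨0, 0, 0, 0⟩
  l020 := ⟨0, 0, 0, 0⟩
  l100 := ⟨0, 0, 0, 0⟩
  l101 := ⟨0, 0, 0, 0⟩
  l102 := ⟨0, 0, 0, 0⟩
  l110 := ⟨0, 0, 0, 0⟩
  l111 := ⟨0, 0, 0, 0⟩
  l120 := ⟨0, 0, 0, 0⟩
  l200 := ⟨0, 0, 0, 0⟩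
  l201 := ⟨0, 0, 0, 0⟩
  l210 := ⟨0, 0, 0, 0⟩
  l300 := ⟨0, 0, 0, 0⟩
  l301 := ⟨0, 0, 0, 0⟩
  l310 := ⟨0, 0, 0, 0⟩
  l400 := ⟨0, 0, 0, 0⟩
  l401 := ⟨0, 0, 0, 0⟩
  l410 := ⟨0, 0, 0, 0⟩
  l500 := ⟨0, 0, 0, 0⟩
  l501 := ⟨0, 0, 0, 0⟩
  l510 := ⟨0, 0, 0, 0⟩
  l600 := ⟨0, 0, 0, 0⟩
  l700 := ⟨0, 0, 0, 0⟩
  l800 := ⟨0, 0, 0, 0⟩
  l900 := ⟨0, 0, 0, 0⟩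
  l1000 := ⟨0, 0, 0, 0⟩
  l1100 := ⟨0, 0, 0, 0⟩
  q00 := ⟨0, 0, 0, 0⟩
  q01 := ⟨0, 0, 0, 0⟩
  q02 := ⟨0, 0, 0, 0⟩
  q03 := ⟨0, 0, 0, 0⟩
  q10 := ⟨0, 0, 0, 0⟩
  q11 := ⟨0, 0, 0, 0⟩
  q12 := ⟨0, 0, 0, 0⟩
  q20 := ⟨0, 0, 0, 0⟩
  q21 := ⟨0, 0, 0, 0⟩
  q30 := ⟨0, 0, 0, 0⟩
  n000 := ⟨0, 0, 0, 0⟩
  n001 := ⟨0, 0, 0, 0⟩
  n002 := ⟨0, 0, 0, 0⟩
  n010 := ⟨0, 0, 0, 0⟩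
  n011 := ⟨0, 0, 0, 0⟩
  n020 := ⟨0, 0, 0, 0⟩
  n100 := ⟨0, 0, 0, 0⟩
  n101 := ⟨0, 0, 0, 0⟩
  n110 := ⟨0, 0, 0, 0⟩
  n200 := ⟨0, 0, 0, 0⟩
  n201 := ⟨0, 0, 0, 0⟩
  n210 := ⟨0, 0, 0, 0⟩
  n300 := ⟨0, 0, 0, 0⟩
  n400 := ⟨0, 0, 0, 0⟩
  n500 := ⟨0, 0, 0, 0⟩
  e00 := ⟨0, 0, 0, 0⟩
  e01 := ⟨0, 0, 0, 0⟩
  e02 := ⟨0, 0, 0, 0⟩
  e03 := ⟨0, 0, 0, 0⟩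
  e10 := ⟨0, 0, 0, 0⟩
  e11 := ⟨0, 0, 0, 0⟩
  B1 := 0

def p16 : Pm where
  ec := ⟨5251268608, 0, 0, 0⟩
  bc := ⟨0, 0, 0, 0⟩
  nn := ⟨18691697672192, 0, 0, 0⟩
  tj := ⟨39582418599936, 0, 0, 0⟩
  ca := ⟨55029268480, 0, 0, 0⟩
  cb := ⟨0, 0, 0, 0⟩
  cc := ⟨0, 0, 0, 0⟩
  ax := ⟨0, 0, 0, 0⟩
  ay := ⟨274877906944, 0, 0, 0⟩
  xa := ⟨10445360463872, 0, 0, 0⟩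
  C2 := ⟨1360220464128, 0, 0, 0⟩
  wr := ⟨0, 877783941120, 0, 0⟩
  wi := ⟨6562978463744, 0, 0, 0⟩
  w1 := ⟨0, 91895120265216, 0, 0⟩
  h000 := ⟨0, 8936704960, 0, 0⟩
  h001 := ⟨0, 2618666560, 0, 0⟩
  h002 := ⟨5081778752, 0, 0, 0⟩
  h003 := ⟨0, 11999633664, 0, 0⟩
  h010 := ⟨0, 3052875267648, 0, 0⟩
  h011 := ⟨0, 1301615060096, 0, 0⟩
  h012 := ⟨0, 0, 0, 0⟩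
  h020 := ⟨105109046697088, 0, 0, 0⟩
  h021 := ⟨0, 0, 0, 0⟩
  h030 := ⟨0, 0, 0, 0⟩
  h100 := ⟨0, 963700160, 0, 0⟩
  h101 := ⟨1786633536, 0, 0, 0⟩
  h102 := ⟨0, 244094656, 0, 0⟩
  h110 := ⟨213244426880, 0, 0, 0⟩
  h111 := ⟨0, 474966930880, 0, 0⟩
  h120 := ⟨0, 0, 0, 0⟩
  h200 := ⟨523342592, 0, 0, 0⟩
  h201 := ⟨0, 317149824, 0, 0⟩
  h202 := ⟨194517440, 0, 0, 0⟩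
  h210 := ⟨19468412736, 0, 0, 0⟩
  h211 := ⟨0, 0, 0, 0⟩
  h300 := ⟨0, 90202496, 0, 0⟩
  h301 := ⟨20961984, 0, 0, 0⟩
  h310 := ⟨0, 8108527296, 0, 0⟩
  h400 := ⟨9194176, 0, 0, 0⟩
  h401 := ⟨0, 607552, 0, 0⟩
  h410 := ⟨0, 0, 0, 0⟩
  h500 := ⟨0, 580288, 0, 0⟩
  h501 := ⟨0, 0, 0, 0⟩
  h600 := ⟨16704, 0, 0, 0⟩
  h700 := ⟨0, 0, 0, 0⟩
  h800 := ⟨0, 0, 0, 0⟩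
  m000 := ⟨1099714985984, 0, 0, 0⟩
  m001 := ⟨0, 189071360, 0, 0⟩
  m002 := ⟨554369024, 0, 0, 0⟩
  m010 := ⟨0, 12958957568, 0, 0⟩
  m100 := ⟨2612002816, 0, 0, 0⟩
  m101 := ⟨49807360, 0, 0, 0⟩
  m110 := ⟨536366022656, 0, 0, 0⟩
  m200 := ⟨0, 5767168, 0, 0⟩
  m300 := ⟨1638400, 0, 0, 0⟩
  a00 := ⟨28268036096, 0, 0, 0⟩
  a01 := ⟨0, 27572764672, 0, 0⟩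
  a02 := ⟨0, 13812826112, 0, 0⟩
  a03 := ⟨56188731392, 0, 0, 0⟩
  a10 := ⟨0, 9772603604992, 0, 0⟩
  a11 := ⟨16879604137984, 0, 0, 0⟩
  b00 := ⟨0, 0, 0, 0⟩
  b01 := ⟨0, 0, 0, 0⟩
  b02 := ⟨0, 0, 0, 0⟩
  b03 := ⟨0, 0, 0, 0⟩
  b10 := ⟨0, 0, 0, 0⟩
  b11 := ⟨0, 0, 0, 0⟩
  t00 := ⟨277704409088, 0, 0, 0⟩
  t01 := ⟨0, 465869799424, 0, 0⟩
  t02 := ⟨53666643968, 0, 0, 0⟩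
  t03 := ⟨796898557952, 0, 0, 0⟩
  t10 := ⟨0, 85442129315840, 0, 0⟩
  t11 := ⟨159227123023872, 0, 0, 0⟩
  s00 := ⟨11859747340288, 0, 0, 0⟩
  s01 := ⟨0, 15174078889984, 0, 0⟩
  s02 := ⟨0, 27006320246784, 0, 0⟩
  s03 := ⟨107337087320064, 0, 0, 0⟩
  s10 := ⟨0, 2304473372983296, 0, 0⟩
  s11 := ⟨4398046511104000, 0, 0, 0⟩
  g00 := ⟨42346092416, 0, 0, 0⟩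
  g01 := ⟨0, 45356611456, 0, 0⟩
  g10 := ⟨9319047959552, 0, 0, 0⟩
  g11 := ⟨0, 0, 0, 0⟩
  f00 := ⟨330953731904, 0, 0, 0⟩
  f01 := ⟨143008424768, 0, 0, 0⟩
  f10 := ⟨94769588392320, 0, 0, 0⟩
  f11 := ⟨0, 0, 0, 0⟩
  l000 := ⟨0, 0, 0, 0⟩
  l001 := ⟨0, 0, 0, 0⟩
  l002 := ⟨0, 0, 0, 0⟩
  l010 := ⟨0, 0, 0, 0⟩
  l011 := ⟨0, 0, 0, 0⟩
  l020 := ⟨0, 0, 0, 0⟩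
  l100 := ⟨0, 0, 0, 0⟩
  l101 := ⟨0, 0, 0, 0⟩
  l102 := ⟨0, 0, 0, 0⟩
  l110 := ⟨0, 0, 0, 0⟩
  l111 := ⟨0, 0, 0, 0⟩
  l120 := ⟨0, 0, 0, 0⟩
  l200 := ⟨0, 0, 0, 0⟩
  l201 := ⟨0, 0, 0, 0⟩
  l210 := ⟨0, 0, 0, 0⟩
  l300 := ⟨0, 0, 0, 0⟩
  l301 := ⟨0, 0, 0, 0⟩
  l310 := ⟨0, 0, 0, 0⟩
  l400 := ⟨0, 0, 0, 0⟩
  l401 := ⟨0, 0, 0, 0⟩
  l410 := ⟨0, 0, 0, 0⟩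
  l500 := ⟨0, 0, 0, 0⟩
  l501 := ⟨0, 0, 0, 0⟩
  l510 := ⟨0, 0, 0, 0⟩
  l600 := ⟨0, 0, 0, 0⟩
  l700 := ⟨0, 0, 0, 0⟩
  l800 := ⟨0, 0, 0, 0⟩
  l900 := ⟨0, 0, 0, 0⟩
  l1000 := ⟨0, 0, 0, 0⟩
  l1100 := ⟨0, 0, 0, 0⟩
  q00 := ⟨0, 0, 0, 0⟩
  q01 := ⟨0, 0, 0, 0⟩
  q02 := ⟨0, 0, 0, 0⟩
  q03 := ⟨0, 0, 0, 0⟩
  q10 := ⟨0, 0, 0, 0⟩
  q11 := ⟨0, 0, 0, 0⟩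
  q12 := ⟨0, 0, 0, 0⟩
  q20 := ⟨0, 0, 0, 0⟩
  q21 := ⟨0, 0, 0, 0⟩
  q30 := ⟨0, 0, 0, 0⟩
  n000 := ⟨0, 0, 0, 0⟩
  n001 := ⟨0, 0, 0, 0⟩
  n002 := ⟨0, 0, 0, 0⟩
  n010 := ⟨0, 0, 0, 0⟩
  n011 := ⟨0, 0, 0, 0⟩
  n020 := ⟨0, 0, 0, 0⟩
  n100 := ⟨0, 0, 0, 0⟩
  n101 := ⟨0, 0, 0, 0⟩
  n110 := ⟨0, 0, 0, 0⟩
  n200 := ⟨0, 0, 0, 0⟩
  n201 := ⟨0, 0, 0, 0⟩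
  n210 := ⟨0, 0, 0, 0⟩
  n300 := ⟨0, 0, 0, 0⟩
  n400 := ⟨0, 0, 0, 0⟩
  n500 := ⟨0, 0, 0, 0⟩
  e00 := ⟨0, 0, 0, 0⟩
  e01 := ⟨0, 0, 0, 0⟩
  e02 := ⟨0, 0, 0, 0⟩
  e03 := ⟨0, 0, 0, 0⟩
  e10 := ⟨0, 0, 0, 0⟩
  e11 := ⟨0, 0, 0, 0⟩
  B1 := 1979120091136

def pF : Pm where
  ec := ⟨5251268608, 0, 0, 0⟩
  bc := ⟨0, 0, 0, 0⟩
  nn := ⟨0, 0, 0, 0⟩
  tj := ⟨2199023255552, 0, 0, 0⟩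
  ca := ⟨989453090816, 0, 0, 0⟩
  cb := ⟨0, 0, 0, 0⟩
  cc := ⟨879662989312, 0, 0, 0⟩
  ax := ⟨0, 0, 0, 0⟩
  ay := ⟨0, 0, 0, 0⟩
  xa := ⟨0, 0, 0, 0⟩
  C2 := ⟨0, 0, 0, 0⟩
  wr := ⟨0, 877783941120, 0, 0⟩
  wi := ⟨6562978463744, 0, 0, 0⟩
  w1 := ⟨0, 91895120265216, 0, 0⟩
  h000 := ⟨0, 8936704960, 0, 0⟩
  h001 := ⟨0, 2618666560, 0, 0⟩
  h002 := ⟨5081778752, 0, 0, 0⟩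
  h003 := ⟨0, 11999633664, 0, 0⟩
  h010 := ⟨0, 3052875267648, 0, 0⟩
  h011 := ⟨0, 1301615060096, 0, 0⟩
  h012 := ⟨0, 0, 0, 0⟩
  h020 := ⟨105109046697088, 0, 0, 0⟩
  h021 := ⟨0, 0, 0, 0⟩
  h030 := ⟨0, 0, 0, 0⟩
  h100 := ⟨0, 963700160, 0, 0⟩
  h101 := ⟨1786633536, 0, 0, 0⟩
  h102 := ⟨0, 244094656, 0, 0⟩
  h110 := ⟨213244426880, 0, 0, 0⟩
  h111 := ⟨0, 474966930880, 0, 0⟩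
  h120 := ⟨0, 0, 0, 0⟩
  h200 := ⟨523342592, 0, 0, 0⟩
  h201 := ⟨0, 317149824, 0, 0⟩
  h202 := ⟨194517440, 0, 0, 0⟩
  h210 := ⟨19468412736, 0, 0, 0⟩
  h211 := ⟨0, 0, 0, 0⟩
  h300 := ⟨0, 90202496, 0, 0⟩
  h301 := ⟨20961984, 0, 0, 0⟩
  h310 := ⟨0, 8108527296, 0, 0⟩
  h400 := ⟨9194176, 0, 0, 0⟩
  h401 := ⟨0, 607552, 0, 0⟩
  h410 := ⟨0, 0, 0, 0⟩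
  h500 := ⟨0, 580288, 0, 0⟩
  h501 := ⟨0, 0, 0, 0⟩
  h600 := ⟨16704, 0, 0, 0⟩
  h700 := ⟨0, 0, 0, 0⟩
  h800 := ⟨0, 0, 0, 0⟩
  m000 := ⟨0, 0, 0, 0⟩
  m001 := ⟨0, 0, 0, 0⟩
  m002 := ⟨0, 0, 0, 0⟩
  m010 := ⟨0, 0, 0, 0⟩
  m100 := ⟨0, 0, 0, 0⟩
  m101 := ⟨0, 0, 0, 0⟩
  m110 := ⟨0, 0, 0, 0⟩
  m200 := ⟨0, 0, 0, 0⟩
  m300 := ⟨0, 0, 0, 0⟩
  a00 := ⟨113396940800, 0, 0, 0⟩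
  a01 := ⟨11018240000, 0, 0, 0⟩
  a02 := ⟨0, 658558156800, 0, 0⟩
  a03 := ⟨1666069168128, 0, 0, 0⟩
  a10 := ⟨0, 28902402949120, 0, 0⟩
  a11 := ⟨67305958604800, 0, 0, 0⟩
  b00 := ⟨0, 0, 0, 0⟩
  b01 := ⟨0, 0, 0, 0⟩
  b02 := ⟨0, 0, 0, 0⟩
  b03 := ⟨0, 0, 0, 0⟩
  b10 := ⟨0, 0, 0, 0⟩
  b11 := ⟨0, 0, 0, 0⟩
  t00 := ⟨1845613166592, 0, 0, 0⟩
  t01 := ⟨76500500480, 0, 0, 0⟩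
  t02 := ⟨0, 584491859968, 0, 0⟩
  t03 := ⟨1417027649536, 0, 0, 0⟩
  t10 := ⟨0, 2695328759808, 0, 0⟩
  t11 := ⟨11194445791232, 0, 0, 0⟩
  s00 := ⟨0, 0, 0, 0⟩
  s01 := ⟨0, 0, 0, 0⟩
  s02 := ⟨0, 0, 0, 0⟩
  s03 := ⟨0, 0, 0, 0⟩
  s10 := ⟨0, 0, 0, 0⟩
  s11 := ⟨0, 0, 0, 0⟩
  g00 := ⟨42346092416, 0, 0, 0⟩
  g01 := ⟨0, 45356611456, 0, 0⟩
  g10 := ⟨9319047959552, 0, 0, 0⟩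
  g11 := ⟨0, 0, 0, 0⟩
  f00 := ⟨330953731904, 0, 0, 0⟩
  f01 := ⟨143008424768, 0, 0, 0⟩
  f10 := ⟨94769588392320, 0, 0, 0⟩
  f11 := ⟨0, 0, 0, 0⟩
  l000 := ⟨3453313916544, 0, 0, 0⟩
  l001 := ⟨11291044224, 0, 0, 0⟩
  l002 := ⟨0, 0, 0, 0⟩
  l010 := ⟨16346438624768, 0, 0, 0⟩
  l011 := ⟨0, 0, 0, 0⟩
  l020 := ⟨0, 0, 0, 0⟩
  l100 := ⟨1599427098560, 0, 0, 0⟩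
  l101 := ⟨0, 49697002880, 0, 0⟩
  l102 := ⟨0, 0, 0, 0⟩
  l110 := ⟨0, 100307708158208, 0, 0⟩
  l111 := ⟨0, 0, 0, 0⟩
  l120 := ⟨0, 0, 0, 0⟩
  l200 := ⟨1162583916928, 0, 0, 0⟩
  l201 := ⟨143017791808, 0, 0, 0⟩
  l210 := ⟨233463981503616, 0, 0, 0⟩
  l300 := ⟨0, 2159076976384, 0, 0⟩
  l301 := ⟨0, 227914148224, 0, 0⟩
  l310 := ⟨0, 437545232565184, 0, 0⟩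
  l400 := ⟨8280566026688, 0, 0, 0⟩
  l401 := ⟨236168445568, 0, 0, 0⟩
  l410 := ⟨412453826803648, 0, 0, 0⟩
  l500 := ⟨0, 25370370784576, 0, 0⟩
  l501 := ⟨0, 82965025536, 0, 0⟩
  l510 := ⟨0, 213829649224256, 0, 0⟩
  l600 := ⟨51894308995008, 0, 0, 0⟩
  l700 := ⟨0, 95457442974656, 0, 0⟩
  l800 := ⟨118399713876224, 0, 0, 0⟩
  l900 := ⟨0, 128095430897920, 0, 0⟩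
  l1000 := ⟨80652780354368, 0, 0, 0⟩
  l1100 := ⟨0, 41654978358016, 0, 0⟩
  q00 := ⟨0, 4460754752, 0, 0⟩
  q01 := ⟨17045547840, 0, 0, 0⟩
  q02 := ⟨67564518400, 0, 0, 0⟩
  q03 := ⟨0, 0, 0, 0⟩
  q10 := ⟨418170028288, 0, 0, 0⟩
  q11 := ⟨0, 2782140739328, 0, 0⟩
  q12 := ⟨0, 0, 0, 0⟩
  q20 := ⟨0, 4502500115742720, 0, 0⟩
  q21 := ⟨0, 0, 0, 0⟩
  q30 := ⟨0, 0, 0, 0⟩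
  n000 := ⟨1095974584320, 0, 0, 0⟩
  n001 := ⟨0, 2109014016, 0, 0⟩
  n002 := ⟨10942939136, 0, 0, 0⟩
  n010 := ⟨1812755316736, 0, 0, 0⟩
  n011 := ⟨1224214315008, 0, 0, 0⟩
  n020 := ⟨1110717454090240, 0, 0, 0⟩
  n100 := ⟨0, 4051763200, 0, 0⟩
  n101 := ⟨2072641536, 0, 0, 0⟩
  n110 := ⟨600236163072, 0, 0, 0⟩
  n200 := ⟨0, 1136721920, 0, 0⟩
  n201 := ⟨0, 379781120, 0, 0⟩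
  n210 := ⟨12966216204288, 0, 0, 0⟩
  n300 := ⟨0, 75897110528, 0, 0⟩
  n400 := ⟨33973141504, 0, 0, 0⟩
  n500 := ⟨0, 222766432256, 0, 0⟩
  e00 := ⟨212318158848, 0, 0, 0⟩
  e01 := ⟨0, 183730831360, 0, 0⟩
  e02 := ⟨1199251521536, 0, 0, 0⟩
  e03 := ⟨0, 2672729128960, 0, 0⟩
  e10 := ⟨0, 34460356640768, 0, 0⟩
  e11 := ⟨35740170780672, 0, 0, 0⟩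
  B1 := 0

end Pool.Agent.helper12.K200
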