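import Pool.Agent.helper12.GS.MAQP
import Pool.Agent.helper12.GS.MBQP
import Pool.Agent.helper12.K200.P

/-!
Generated certificates.
-/

namespace Pool.Agent.helper12.K200

open Pool.Agent.helper31.IX (Cov cov_split)
open Pool.Agent.helper12.GS
open Pool.Agent.helper14.QF (cov_E)

mutual
theorem N7A : Cov 1 (MAQ.prog0 p7) [(5247598592, 250085376), (77309411328, 77309411328), (549755813888, 549755813888)] :=
  cov_E (MAQ.chkB0_eq p7) (.n 1 (.n 2 (.n 2 (.n 2 (.n 0 .l .l) (.n 2 .l .l)) (.n 2 (.n 2 .l .l) .l)) (.n 2 (.n 2 .l .l) (.n 0 .l .l))) (.n 2 (.n 2 (.n 2 (.n 0 .l .l) (.n 2 .l .l)) (.n 2 (.n 2 .l .l) (.n 0 .l .l))) (.n 2 (.n 2 .l .l) (.n 0 .l .l))))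
    [(5247598592, 250085376), (77309411328, 77309411328), (549755813888, 549755813888)] rfl (by decide +kernel)
theorem N7B0 : Cov 1 (MBQ.prog0 p7) [(5247598592, 250085376), (54975791104, 54975791104), (549755813888, 549755813888)] :=
  cov_E (MBQ.chkB0_eq p7) (.n 1 (.n 2 (.n 2 (.n 1 .l .l) (.n 2 .l .l)) (.n 0 (.n 1 (.n 2 .l .l) (.n 2 .l .l)) (.n 1 (.n 2 .l .l) (.n 2 .l .l)))) (.n 2 (.n 2 (.n 2 .l .l) (.n 2 .l .l)) (.n 1 (.n 1 (.n 2 .l .l) (.n 2 .l .l)) (.n 1 (.n 2 .l .l) (.n 2 .l .l)))))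
    [(5247598592, 250085376), (54975791104, 54975791104), (549755813888, 549755813888)] rfl (by decide +kernel)
end

mutual
theorem N7B1 : Cov 1 (MBQ.prog0 p7) [(5247598592, 250085376), (142936637440, 32986103808), (386547056640, 386547056640)] :=
  cov_E (MBQ.chkB0_eq p7) (.n 1 (.n 2 (.n 2 .l .l) (.n 2 .l (.n 0 .l .l))) (.n 2 (.n 2 .l .l) (.n 0 (.n 2 .l .l) (.n 2 .l .l))))
    [(5247598592, 250085376), (142936637440, 32986103808), (386547056640, 386547056640)] rfl (by decide +kernel)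
theorem N7B2 : Cov 1 (MBQ.prog0 p7) [(5247598592, 250085376), (225399799808, 49478107136), (241591910400, 241591910400)] :=
  cov_E (MBQ.chkB0_eq p7) (.n 2 (.n 2 .l (.n 0 .l .l)) (.n 1 (.n 2 .l .l) (.n 2 .l .l)))
    [(5247598592, 250085376), (225399799808, 49478107136), (241591910400, 241591910400)] rfl (by decide +kernel)
end

mutual
theorem N8A : Cov 1 (MAQ.prog0 p8) [(5247598592, 250085376), (77309411328, 77309411328), (549755813888, 549755813888)] :=
  cov_E (MAQ.chkB0_eq p8) (.n 1 (.n 2 (.n 2 (.n 2 (.n 0 .l .l) (.n 2 .l .l)) (.n 2 (.n 2 .l .l) .l)) (.n 2 (.n 2 .l .l) (.n 0 .l .l))) (.n 2 (.n 2 (.n 2 (.n 0 .l .l) (.n 2 .l .l)) (.n 2 (.n 2 .l .l) (.n 0 .l .l))) (.n 2 (.n 2 .l .l) (.n 0 .l .l))))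
    [(5247598592, 250085376), (77309411328, 77309411328), (549755813888, 549755813888)] rfl (by decide +kernel)
theorem N8B0 : Cov 1 (MBQ.prog0 p8) [(5247598592, 250085376), (54975791104, 54975791104), (549755813888, 549755813888)] :=
  cov_E (MBQ.chkB0_eq p8) (.n 1 (.n 2 (.n 2 (.n 1 .l .l) (.n 2 .l .l)) (.n 0 (.n 1 (.n 2 .l .l) (.n 2 .l .l)) (.n 1 (.n 2 .l .l) (.n 2 .l .l)))) (.n 2 (.n 2 (.n 2 .l .l) (.n 2 .l .l)) (.n 1 (.n 1 (.n 2 .l .l) (.n 2 .l .l)) (.n 2 (.n 2 .l .l) (.n 1 .l .l)))))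
    [(5247598592, 250085376), (54975791104, 54975791104), (549755813888, 549755813888)] rfl (by decide +kernel)
end

mutual
theorem N8B1 : Cov 1 (MBQ.prog0 p8) [(5247598592, 250085376), (142936637440, 32986103808), (386547056640, 386547056640)] :=
  cov_E (MBQ.chkB0_eq p8) (.n 1 (.n 2 (.n 2 .l .l) (.n 2 .l (.n 0 .l .l))) (.n 2 (.n 2 .l .l) (.n 0 (.n 2 .l .l) (.n 2 .l .l))))
    [(5247598592, 250085376), (142936637440, 32986103808), (386547056640, 386547056640)] rfl (by decide +kernel)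
theorem N8B2 : Cov 1 (MBQ.prog0 p8) [(5247598592, 250085376), (225399799808, 49478107136), (241591910400, 241591910400)] :=
  cov_E (MBQ.chkB0_eq p8) (.n 2 (.n 2 .l (.n 1 .l .l)) (.n 1 (.n 2 .l .l) (.n 2 .l .l)))
    [(5247598592, 250085376), (225399799808, 49478107136), (241591910400, 241591910400)] rfl (by decide +kernel)
end

mutual
theorem N9A : Cov 1 (MAQ.prog0 p9) [(5247598592, 250085376), (77309411328, 77309411328), (549755813888, 549755813888)] :=
  cov_E (MAQ.chkB0_eq p9) (.n 1 (.n 2 (.n 2 (.n 2 (.n 0 .l .l) (.n 2 .l .l)) (.n 2 (.n 2 .l .l) .l)) (.n 2 (.n 2 .l .l) (.n 0 .l .l))) (.n 2 (.n 2 (.n 2 (.n 0 .l .l) (.n 2 .l .l)) (.n 2 (.n 2 .l .l) (.n 0 .l .l))) (.n 2 (.n 2 .l .l) (.n 0 .l .l))))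
    [(5247598592, 250085376), (77309411328, 77309411328), (549755813888, 549755813888)] rfl (by decide +kernel)
theorem N9B0_t1 : Cov 1 (MBQ.prog0 p9) [(5247598592, 250085376), (27487895552, 27487895552), (549755813888, 549755813888)] :=
  cov_E (MBQ.chkB0_eq p9) (.n 2 (.n 2 (.n 2 .l .l) (.n 2 .l .l)) (.n 0 (.n 1 (.n 2 .l .l) (.n 2 .l .l)) (.n 1 (.n 2 .l .l) (.n 2 .l .l))))
    [(5247598592, 250085376), (27487895552, 27487895552), (549755813888, 549755813888)] rfl (by decide +kernel)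
end

mutual
theorem N9B0_t2 : Cov 1 (MBQ.prog0 p9) [(5247598592, 250085376), (82463686656, 27487895552), (549755813888, 549755813888)] :=
  cov_E (MBQ.chkB0_eq p9) (.n 2 (.n 2 (.n 2 .l .l) (.n 2 .l (.n 0 .l .l))) (.n 1 (.n 1 (.n 2 .l .l) (.n 2 .l .l)) (.n 2 (.n 2 .l .l) (.n 2 .l .l))))
    [(5247598592, 250085376), (82463686656, 27487895552), (549755813888, 549755813888)] rfl (by decide +kernel)
theorem N9B1 : Cov 1 (MBQ.prog0 p9) [(5247598592, 250085376), (142936637440, 32986103808), (386547056640, 386547056640)] :=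
  cov_E (MBQ.chkB0_eq p9) (.n 2 (.n 1 (.n 2 .l .l) (.n 2 .l .l)) (.n 2 (.n 2 .l (.n 0 .l .l)) (.n 1 (.n 0 .l .l) (.n 1 .l .l))))
    [(5247598592, 250085376), (142936637440, 32986103808), (386547056640, 386547056640)] rfl (by decide +kernel)
end

mutual
theorem N9B2 : Cov 1 (MBQ.prog0 p9) [(5247598592, 250085376), (225399799808, 49478107136), (241591910400, 241591910400)] :=
  cov_E (MBQ.chkB0_eq p9) (.n 1 (.n 2 (.n 2 .l .l) (.n 2 .l .l)) (.n 2 (.n 2 .l .l) (.n 2 .l .l)))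
    [(5247598592, 250085376), (225399799808, 49478107136), (241591910400, 241591910400)] rfl (by decide +kernel)
theorem N10A : Cov 1 (MAQ.prog0 p10) [(5247598592, 250085376), (77309411328, 77309411328), (549755813888, 549755813888)] :=
  cov_E (MAQ.chkB0_eq p10) (.n 1 (.n 2 (.n 2 (.n 2 (.n 0 .l .l) (.n 2 .l .l)) (.n 2 (.n 0 .l .l) .l)) (.n 2 (.n 2 .l .l) (.n 0 .l .l))) (.n 2 (.n 2 (.n 2 (.n 0 .l .l) (.n 2 .l .l)) (.n 2 (.n 2 .l .l) .l)) (.n 2 (.n 2 .l .l) (.n 0 .l .l))))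
    [(5247598592, 250085376), (77309411328, 77309411328), (549755813888, 549755813888)] rfl (by decide +kernel)
end

mutual
theorem N10B0_t1 : Cov 1 (MBQ.prog0 p10) [(5247598592, 250085376), (27487895552, 27487895552), (549755813888, 549755813888)] :=
  cov_E (MBQ.chkB0_eq p10) (.n 2 (.n 2 (.n 2 .l .l) (.n 2 .l .l)) (.n 0 (.n 1 (.n 2 .l .l) (.n 2 .l .l)) (.n 1 (.n 2 .l .l) (.n 2 .l .l))))
    [(5247598592, 250085376), (27487895552, 27487895552), (549755813888, 549755813888)] rfl (by decide +kernel)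
theorem N10B0_t2 : Cov 1 (MBQ.prog0 p10) [(5247598592, 250085376), (82463686656, 27487895552), (549755813888, 549755813888)] :=
  cov_E (MBQ.chkB0_eq p10) (.n 2 (.n 2 (.n 2 .l .l) (.n 2 .l (.n 0 .l .l))) (.n 1 (.n 1 (.n 2 .l .l) (.n 2 .l .l)) (.n 2 (.n 2 .l .l) (.n 2 .l .l))))
    [(5247598592, 250085376), (82463686656, 27487895552), (549755813888, 549755813888)] rfl (by decide +kernel)
end

mutual
theorem N10B1 : Cov 1 (MBQ.prog0 p10) [(5247598592, 250085376), (142936637440, 32986103808), (386547056640, 386547056640)] :=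
  cov_E (MBQ.chkB0_eq p10) (.n 2 (.n 2 (.n 0 .l .l) (.n 2 .l .l)) (.n 2 (.n 2 .l (.n 0 .l .l)) (.n 1 (.n 0 .l .l) (.n 1 .l .l))))
    [(5247598592, 250085376), (142936637440, 32986103808), (386547056640, 386547056640)] rfl (by decide +kernel)
theorem N10B2 : Cov 1 (MBQ.prog0 p10) [(5247598592, 250085376), (225399799808, 49478107136), (241591910400, 241591910400)] :=
  cov_E (MBQ.chkB0_eq p10) (.n 1 (.n 2 (.n 2 .l .l) (.n 2 .l .l)) (.n 2 (.n 2 .l .l) (.n 2 .l .l)))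
    [(5247598592, 250085376), (225399799808, 49478107136), (241591910400, 241591910400)] rfl (by decide +kernel)
end

mutual
theorem N11A : Cov 1 (MAQ.prog0 p11) [(5247598592, 250085376), (77309411328, 77309411328), (549755813888, 549755813888)] :=
  cov_E (MAQ.chkB0_eq p11) (.n 1 (.n 2 (.n 2 (.n 2 (.n 0 .l .l) (.n 2 .l .l)) (.n 2 (.n 0 .l .l) .l)) (.n 2 (.n 2 .l .l) (.n 0 .l .l))) (.n 2 (.n 2 (.n 2 (.n 0 .l .l) (.n 2 .l .l)) (.n 2 (.n 2 .l .l) .l)) (.n 2 (.n 2 .l .l) (.n 1 .l .l))))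
    [(5247598592, 250085376), (77309411328, 77309411328), (549755813888, 549755813888)] rfl (by decide +kernel)
theorem N11B0_t1 : Cov 1 (MBQ.prog0 p11) [(5247598592, 250085376), (27487895552, 27487895552), (549755813888, 549755813888)] :=
  cov_E (MBQ.chkB0_eq p11) (.n 2 (.n 2 (.n 2 .l .l) (.n 2 .l .l)) (.n 0 (.n 1 (.n 2 .l .l) (.n 2 .l .l)) (.n 1 (.n 2 .l .l) (.n 2 .l .l))))
    [(5247598592, 250085376), (27487895552, 27487895552), (549755813888, 549755813888)] rfl (by decide +kernel)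
end

mutual
theorem N11B0_t2 : Cov 1 (MBQ.prog0 p11) [(5247598592, 250085376), (82463686656, 27487895552), (549755813888, 549755813888)] :=
  cov_E (MBQ.chkB0_eq p11) (.n 2 (.n 2 (.n 2 .l .l) (.n 2 .l (.n 0 .l .l))) (.n 1 (.n 2 (.n 2 .l .l) (.n 1 .l .l)) (.n 2 (.n 2 .l .l) (.n 2 .l .l))))
    [(5247598592, 250085376), (82463686656, 27487895552), (549755813888, 549755813888)] rfl (by decide +kernel)
theorem N11B1 : Cov 1 (MBQ.prog0 p11) [(5247598592, 250085376), (142936637440, 32986103808), (386547056640, 386547056640)] :=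
  cov_E (MBQ.chkB0_eq p11) (.n 2 (.n 2 (.n 1 .l .l) (.n 2 .l .l)) (.n 1 (.n 0 (.n 2 .l .l) (.n 2 .l .l)) (.n 1 (.n 2 .l .l) (.n 2 .l .l))))
    [(5247598592, 250085376), (142936637440, 32986103808), (386547056640, 386547056640)] rfl (by decide +kernel)
end

mutual
theorem N11B2 : Cov 1 (MBQ.prog0 p11) [(5247598592, 250085376), (225399799808, 49478107136), (241591910400, 241591910400)] :=
  cov_E (MBQ.chkB0_eq p11) (.n 1 (.n 2 (.n 2 .l .l) (.n 2 .l .l)) (.n 2 (.n 2 .l .l) (.n 2 .l .l)))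
    [(5247598592, 250085376), (225399799808, 49478107136), (241591910400, 241591910400)] rfl (by decide +kernel)
theorem N12A : Cov 1 (MAQ.prog0 p12) [(5247598592, 250085376), (77309411328, 77309411328), (549755813888, 549755813888)] :=
  cov_E (MAQ.chkB0_eq p12) (.n 1 (.n 2 (.n 2 (.n 2 (.n 0 .l .l) (.n 2 .l .l)) (.n 0 (.n 2 .l .l) (.n 2 .l .l))) (.n 2 (.n 2 .l .l) (.n 1 .l .l))) (.n 2 (.n 2 (.n 2 (.n 0 .l .l) (.n 2 .l .l)) (.n 0 (.n 2 .l .l) (.n 2 .l .l))) (.n 2 (.n 2 .l .l) (.n 1 .l .l))))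
    [(5247598592, 250085376), (77309411328, 77309411328), (549755813888, 549755813888)] rfl (by decide +kernel)
end

mutual
theorem N12B0_t1 : Cov 1 (MBQ.prog0 p12) [(5247598592, 250085376), (27487895552, 27487895552), (549755813888, 549755813888)] :=
  cov_E (MBQ.chkB0_eq p12) (.n 2 (.n 2 (.n 2 .l .l) (.n 2 .l (.n 0 .l .l))) (.n 0 (.n 1 (.n 2 .l .l) (.n 2 .l .l)) (.n 1 (.n 2 .l .l) (.n 2 .l .l))))
    [(5247598592, 250085376), (27487895552, 27487895552), (549755813888, 549755813888)] rfl (by decide +kernel)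
theorem N12B0_t2 : Cov 1 (MBQ.prog0 p12) [(5247598592, 250085376), (82463686656, 27487895552), (549755813888, 549755813888)] :=
  cov_E (MBQ.chkB0_eq p12) (.n 2 (.n 2 (.n 2 .l .l) (.n 2 .l (.n 0 .l .l))) (.n 1 (.n 2 (.n 2 .l .l) (.n 1 .l .l)) (.n 2 (.n 2 .l .l) (.n 2 .l .l))))
    [(5247598592, 250085376), (82463686656, 27487895552), (549755813888, 549755813888)] rfl (by decide +kernel)
theorem N12B1 : Cov 1 (MBQ.prog0 p12) [(5247598592, 250085376), (142936637440, 32986103808), (386547056640, 386547056640)] :=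
  cov_E (MBQ.chkB0_eq p12) (.n 2 (.n 2 (.n 1 .l .l) (.n 2 .l .l)) (.n 1 (.n 0 (.n 2 .l .l) (.n 2 .l .l)) (.n 1 (.n 2 .l .l) (.n 2 .l .l))))
    [(5247598592, 250085376), (142936637440, 32986103808), (386547056640, 386547056640)] rfl (by decide +kernel)
end

theorem N9B0 : Cov 1 (MBQ.prog0 p9) [(5247598592, 250085376), (54975791104, 54975791104), (549755813888, 549755813888)] :=
  cov_split 1 (by decide +kernel) N9B0_t1 N9B0_t2

theorem N10B0 : Cov 1 (MBQ.prog0 p10) [(5247598592, 250085376), (54975791104, 54975791104), (549755813888, 549755813888)] :=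
  cov_split 1 (by decide +kernel) N10B0_t1 N10B0_t2

theorem N11B0 : Cov 1 (MBQ.prog0 p11) [(5247598592, 250085376), (54975791104, 54975791104), (549755813888, 549755813888)] :=
  cov_split 1 (by decide +kernel) N11B0_t1 N11B0_t2

theorem N12B0 : Cov 1 (MBQ.prog0 p12) [(5247598592, 250085376), (54975791104, 54975791104), (549755813888, 549755813888)] :=
  cov_split 1 (by decide +kernel) N12B0_t1 N12B0_t2

end Pool.Agent.helper12.K200
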