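import Pool.Agent.helper12.GS.Pc
import Pool.Agent.helper14.NS.Q200a.Tab
import Pool.Agent.helper12.K200.C0
import Pool.Agent.helper12.K200.C1
import Pool.Agent.helper12.K200.C2

/-!
Generated: the corner of the table Q200a.
-/

namespace Pool.Agent.helper12.K200

open Complex
open Pool.Agent.helper31.IX (Cov cov_split)
open Pool.Agent.helper12.GS Pool.Agent.helper12.RS Pool.Agent.helper63.NF
open Pool.Agent.helper12.GP (CC CF cc25 cf25 corOk corner_of epc)
open Pool.Agent.helper14.NS.Q200a (tab)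

theorem c_ok : corOk tab = true := by decide +kernel

theorem l_ok : tab.Okl := TD.okl_of (by decide +kernel)

theorem cc0 : CC (MAQ.prog0 p0) (MBQ.prog0 p0) 5247598592 250085376 (1 / 4) :=
  cc25 N0A N0B0 N0B1 N0B2

theorem ag0 : agZ1 tab 0 p0 = true := by decide +kernel

theorem aq0 : agP tab p0 = true := by decide +kernel

theorem cc1 : CC (MAQ.prog0 p1) (MBQ.prog0 p1) 5247598592 250085376 (1 / 4) :=
  cc25 N1A N1B0 N1B1 N1B2

theorem ag1 : agZ1 tab 1 p1 = true := by decide +kernel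

theorem aq1 : agP tab p1 = true := by decide +kernel

theorem cc2 : CC (MAQ.prog0 p2) (MBQ.prog0 p2) 5247598592 250085376 (1 / 4) :=
  cc25 N2A N2B0 N2B1 N2B2

theorem ag2 : agZ1 tab 2 p2 = true := by decide +kernel

theorem aq2 : agP tab p2 = true := by decide +kernel

theorem cc3 : CC (MAQ.prog0 p3) (MBQ.prog0 p3) 5247598592 250085376 (1 / 4) :=
  cc25 N3A N3B0 N3B1 N3B2

theorem ag3 : agZ1 tab 3 p3 = true := by decide +kernel

theorem aq3 : agP tab p3 = true := by decide +kernel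

theorem cc4 : CC (MAQ.prog0 p4) (MBQ.prog0 p4) 5247598592 250085376 (1 / 4) :=
  cc25 N4A N4B0 N4B1 N4B2

theorem ag4 : agZ1 tab 4 p4 = true := by decide +kernel

theorem aq4 : agP tab p4 = true := by decide +kernel

theorem cc5 : CC (MAQ.prog0 p5) (MBQ.prog0 p5) 5247598592 250085376 (1 / 4) :=
  cc25 N5A N5B0 N5B1 N5B2

theorem ag5 : agZ1 tab 5 p5 = true := by decide +kernel

theorem aq5 : agP tab p5 = true := by decide +kernel

theorem cc6 : CC (MAQ.prog0 p6) (MBQ.prog0 p6) 5247598592 250085376 (1 / 4) :=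
  cc25 N6A N6B0 N6B1 N6B2

theorem ag6 : agZ1 tab 6 p6 = true := by decide +kernel

theorem aq6 : agP tab p6 = true := by decide +kernel

theorem cc7 : CC (MAQ.prog0 p7) (MBQ.prog0 p7) 5247598592 250085376 (1 / 4) :=
  cc25 N7A N7B0 N7B1 N7B2

theorem ag7 : agZ1 tab 7 p7 = true := by decide +kernel

theorem aq7 : agP tab p7 = true := by decide +kernel

theorem cc8 : CC (MAQ.prog0 p8) (MBQ.prog0 p8) 5247598592 250085376 (1 / 4) :=
  cc25 N8A N8B0 N8B1 N8B2

theorem ag8 : agZ1 tab 8 p8 = true := by decide +kernel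

theorem aq8 : agP tab p8 = true := by decide +kernel

theorem cc9 : CC (MAQ.prog0 p9) (MBQ.prog0 p9) 5247598592 250085376 (1 / 4) :=
  cc25 N9A N9B0 N9B1 N9B2

theorem ag9 : agZ1 tab 9 p9 = true := by decide +kernel

theorem aq9 : agP tab p9 = true := by decide +kernel

theorem cc10 : CC (MAQ.prog0 p10) (MBQ.prog0 p10) 5247598592 250085376 (1 / 4) :=
  cc25 N10A N10B0 N10B1 N10B2

theorem ag10 : agZ1 tab 10 p10 = true := by decide +kernel

theorem aq10 : agP tab p10 = true := by decide +kernel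

theorem cc11 : CC (MAQ.prog0 p11) (MBQ.prog0 p11) 5247598592 250085376 (1 / 4) :=
  cc25 N11A N11B0 N11B1 N11B2

theorem ag11 : agZ1 tab 11 p11 = true := by decide +kernel

theorem aq11 : agP tab p11 = true := by decide +kernel

theorem cc12 : CC (MAQ.prog0 p12) (MBQ.prog0 p12) 5247598592 250085376 (1 / 4) :=
  cc25 N12A N12B0 N12B1 N12B2

theorem ag12 : agZ1 tab 12 p12 = true := by decide +kernel

theorem aq12 : agP tab p12 = true := by decide +kernel

theorem cc13 : CC (MAQ.prog0 p13) (MBQ.prog0 p13) 5247598592 250085376 (1 / 4) :=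
  cc25 N13A N13B0 N13B1 N13B2

theorem ag13 : agZ1 tab 13 p13 = true := by decide +kernel

theorem aq13 : agP tab p13 = true := by decide +kernel

theorem cc14 : CC (MAQ.prog0 p14) (MBQ.prog0 p14) 5247598592 250085376 (1 / 4) :=
  cc25 N14A N14B0 N14B1 N14B2

theorem ag14 : agZ1 tab 14 p14 = true := by decide +kernel

theorem aq14 : agP tab p14 = true := by decide +kernel

theorem cc15 : CC (MAQ.prog0 p15) (MBQ.prog0 p15) 5247598592 250085376 (1 / 4) :=
  cc25 N15A N15B0 N15B1 N15B2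

theorem ag15 : agZ1 tab 15 p15 = true := by decide +kernel

theorem aq15 : agP tab p15 = true := by decide +kernel

theorem cc16 : CC (LAQ.prog0 p16) (LBQ.prog0 p16) 5247598592 250085376 (1 / 4) :=
  cc25 N16A N16B0 N16B1 N16B2

theorem ag16 : agZ tab 16 p16 = true := by decide +kernel

theorem al : agL tab p16 = true := by decide +kernel

theorem aq16 : agP tab p16 = true := by decide +kernel

theorem cf : CF (FAQ.prog0 pF) (FBQ.prog0 pF) 5247598592 250085376 (1 / 4) := cf25 FA FB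

theorem agf : agF tab pF = true := by decide +kernel

theorem aqF : agP tab pF = true := by decide +kernel

/-- **the corner** -/
theorem corner {e κ x0 : ℝ} (h0 : 200 ≤ e) (h1 : e ≤ 220) (hκ : 0 < κ) (hb : e * κ / 2 ≤ 1 / 4)
    (hS : SF tab 18 e κ x0) : Corner tab 18 e κ (1 / 8) (1 / 20) := by
  have he : 4 ≤ e := by linarith
  have hep : |1 / e - ((5247598592 : ℕ) : ℝ) / 2 ^ 40| ≤ ((250085376 : ℕ) : ℝ) / 2 ^ 40 :=
    epc (by norm_num) h0 h1 (by norm_num) (by norm_num)
  refine corner_of ?_ ?_ ?_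
  · intro m hm arc
    obtain rfl | rfl | rfl | rfl | rfl | rfl | rfl | rfl | rfl | rfl | rfl | rfl | rfl | rfl | rfl | rfl : m = 0 ∨ m = 1 ∨ m = 2 ∨ m = 3 ∨ m = 4 ∨ m = 5 ∨ m = 6 ∨ m = 7 ∨ m = 8 ∨ m = 9 ∨ m = 10 ∨ m = 11 ∨ m = 12 ∨ m = 13 ∨ m = 14 ∨ m = 15 := by omega
    · obtain ⟨q, aq⟩ := agP_of aq0
      exact pc_midQ cc0 c_ok aq (agZ1_of ag0) he hκ (by linarith) hb hep hS hm (by norm_num; linarith) arc
    · obtain ⟨q, aq⟩ := agP_of aq1
      exact pc_midQ cc1 c_ok aq (agZ1_of ag1) he hκ (by linarith) hb hep hS hm (by norm_num; linarith) arc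
    · obtain ⟨q, aq⟩ := agP_of aq2
      exact pc_midQ cc2 c_ok aq (agZ1_of ag2) he hκ (by linarith) hb hep hS hm (by norm_num; linarith) arc
    · obtain ⟨q, aq⟩ := agP_of aq3
      exact pc_midQ cc3 c_ok aq (agZ1_of ag3) he hκ (by linarith) hb hep hS hm (by norm_num; linarith) arc
    · obtain ⟨q, aq⟩ := agP_of aq4
      exact pc_midQ cc4 c_ok aq (agZ1_of ag4) he hκ (by linarith) hb hep hS hm (by norm_num; linarith) arc
    · obtain ⟨q, aq⟩ := agP_of aq5
      exact pc_midQ cc5 c_ok aq (agZ1_of ag5) he hκ (by linarith) hb hep hS hm (by norm_num; linarith) arc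
    · obtain ⟨q, aq⟩ := agP_of aq6
      exact pc_midQ cc6 c_ok aq (agZ1_of ag6) he hκ (by linarith) hb hep hS hm (by norm_num; linarith) arc
    · obtain ⟨q, aq⟩ := agP_of aq7
      exact pc_midQ cc7 c_ok aq (agZ1_of ag7) he hκ (by linarith) hb hep hS hm (by norm_num; linarith) arc
    · obtain ⟨q, aq⟩ := agP_of aq8
      exact pc_midQ cc8 c_ok aq (agZ1_of ag8) he hκ (by linarith) hb hep hS hm (by norm_num; linarith) arc
    · obtain ⟨q, aq⟩ := agP_of aq9
      exact pc_midQ cc9 c_ok aq (agZ1_of ag9) he hκ (by linarith) hb hep hS hm (by norm_num; linarith) arc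
    · obtain ⟨q, aq⟩ := agP_of aq10
      exact pc_midQ cc10 c_ok aq (agZ1_of ag10) he hκ (by linarith) hb hep hS hm (by norm_num; linarith) arc
    · obtain ⟨q, aq⟩ := agP_of aq11
      exact pc_midQ cc11 c_ok aq (agZ1_of ag11) he hκ (by linarith) hb hep hS hm (by norm_num; linarith) arc
    · obtain ⟨q, aq⟩ := agP_of aq12
      exact pc_midQ cc12 c_ok aq (agZ1_of ag12) he hκ (by linarith) hb hep hS hm (by norm_num; linarith) arc
    · obtain ⟨q, aq⟩ := agP_of aq13
      exact pc_midQ cc13 c_ok aq (agZ1_of ag13) he hκ (by linarith) hb hep hS hm (by norm_num; linarith) arc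
    · obtain ⟨q, aq⟩ := agP_of aq14
      exact pc_midQ cc14 c_ok aq (agZ1_of ag14) he hκ (by linarith) hb hep hS hm (by norm_num; linarith) arc
    · obtain ⟨q, aq⟩ := agP_of aq15
      exact pc_midQ cc15 c_ok aq (agZ1_of ag15) he hκ (by linarith) hb hep hS hm (by norm_num; linarith) arc
  · intro m hm arc
    obtain rfl : m = 16 := by omega
    obtain ⟨q, aq⟩ := agP_of aq16
    exact pc_lastQ cc16 c_ok l_ok aq (agZ_of ag16) (agL_of al) he hκ (by linarith) hb hep hS hm (by norm_num; linarith) arc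
  · obtain ⟨q, aq⟩ := agP_of aqF
    exact pc_zeroQ cf c_ok aq (agF_of agf) he hκ hb hep hS (by norm_num)

end Pool.Agent.helper12.K200
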